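import Pool.Agent.Lib.MP_9599cf_ntG.GVal

/-! # Five terms: large `d` -/

set_option autoImplicit false

namespace SalemGap

open SalemLen

private theorem yBig_mul {x d y t : ℕ} (h : x * d = y * d + t) (ht : 0 < t) (ht2 : t < 2 * d) :
    t = d := by
  rcases Nat.lt_or_ge x (y + 1) with h1 | h1
  · have h2 : x * d ≤ y * d := Nat.mul_le_mul_right d (by omega)
    omega
  · rcases Nat.lt_or_ge x (y + 2) with h3 | h3
    · have h4 : x = y + 1 := by omega
      rw [h4, Nat.succ_mul] at h
      omega
    · have h5 : (y + 2) * d ≤ x * d := Nat.mul_le_mul_right d h3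
      have h6 : (y + 2) * d = y * d + 2 * d := by ring
      omega

private theorem yBig_plus {d M s q r a c : ℕ} (hs : 0 < s) (hsd : s < d) (hM : 0 < M)
    (h2 : s ≠ 2 * M) (h3 : s ≠ 3 * M) (hMq : M = q * d + r) (hr : r < d) (hrs : r ≠ s)
    (hrs' : r + s ≠ d) (hca : c ≤ 2 * a) : a * d + c * M ≠ 2 * d + M + s := by
  intro h
  have hMs : M ≠ s := by
    intro h4
    rcases Nat.eq_zero_or_pos q with h5 | h5
    · rw [h5, Nat.zero_mul] at hMq
      omega
    · have h6 : 1 * d ≤ q * d := Nat.mul_le_mul_right d h5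
      omega
  rcases Nat.lt_or_ge c 2 with hc | hc
  · interval_cases c
    · rw [Nat.zero_mul] at h
      have h4 : a * d = (q + 2) * d + (r + s) := by
        rw [Nat.add_mul]
        omega
      exact hrs' (yBig_mul h4 (by omega) (by omega))
    · have h4 : a * d = 2 * d + s := by omega
      have := yBig_mul h4 hs (by omega)
      omega
  · rcases Nat.lt_or_ge a 3 with ha | ha
    · have h4 : 2 * M ≤ c * M := Nat.mul_le_mul_right M hc
      interval_cases a
      · omega
      · have hc2 : c = 2 := by omega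
        rw [hc2] at h
        have h5 : M = d + s := by omega
        have h6 : d + s = q * d + r := by omega
        rcases Nat.lt_or_ge q 2 with hq | hq
        · interval_cases q
          · omega
          · omega
        · have h7 : 2 * d ≤ q * d := Nat.mul_le_mul_right d hq
          omega
      · have hc4 : c ≤ 4 := by omega
        interval_cases c <;> omega
    · have h4 : 3 * d ≤ a * d := Nat.mul_le_mul_right d ha
      have h5 : 2 * M ≤ c * M := Nat.mul_le_mul_right M hc
      omega

private theorem yBig_minus {d M s q r a c : ℕ} (hs : 0 < s) (hsd : s < d) (hM : 0 < M)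
    (hMq : M = q * d + r) (hr : r < d) (hrs : r ≠ s)
    (hrs' : r + s ≠ d) (hca : c ≤ 2 * a) : a * d + c * M + s ≠ 2 * d + M := by
  intro h
  rcases Nat.lt_or_ge c 2 with hc | hc
  · interval_cases c
    · rw [Nat.zero_mul] at h
      have h4 : (q + 2) * d + r = a * d + s := by
        rw [Nat.add_mul]
        omega
      rcases Nat.lt_or_ge s r with h5 | h5
      · have h6 : a * d = (q + 2) * d + (r - s) := by omega
        have := yBig_mul h6 (by omega) (by omega)
        omega
      · have h6 : (q + 2) * d = a * d + (s - r) := by omega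
        have := yBig_mul h6 (by omega) (by omega)
        omega
    · have h4 : 2 * d = a * d + s := by omega
      have := yBig_mul h4 hs (by omega)
      omega
  · have h5 : 2 * M ≤ c * M := Nat.mul_le_mul_right M hc
    rcases Nat.lt_or_ge a 2 with ha | ha
    · interval_cases a
      · omega
      · have hc2 : c = 2 := by omega
        rw [hc2] at h
        have h6 : M + s = d := by omega
        rcases Nat.eq_zero_or_pos q with h7 | h7
        · rw [h7, Nat.zero_mul] at hMq
          omega
        · have h8 : 1 * d ≤ q * d := Nat.mul_le_mul_right d h7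
          omega
    · have h4 : 2 * d ≤ a * d := Nat.mul_le_mul_right d ha
      omega

/-- PROOF. Let `m = h - d ≥ 1`. If `m = 1` (so `h = d + 1`, `d ≥ 7`) take `s = 4`; if `m ≥ 2` take `s ∈ {1, 2, 3}` such that `d`
divides neither `h - s` nor `h + s` (at most two of the three values are excluded, as `d ≥ 4`). Let `k = h + d`.
By `supp`, `p s = 0` (`0 < s < d`) and `p (k + s) = p (k - s) = 0`: suppose
`i d + j h + l (2 h - d) + n (2 h) = h + d ± s`.
Case `m ≥ 2`: `j = l = n = 0`: `d ∣ h ± s`. `j = 1`, `l = n = 0`: `i d = d ± s`, impossible for `0 < s < d`. `j = 2` or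
`n = 1` (the others `0`): `h = (1 - i) d ± s`, so `i = 0` and `d ∣ h - s` or `h + s`. `l = 1`, `j = n = 0`:
`h = (2 - i) d ± s`. `j = l = 1`: `2 h = (2 - i) d ± s`, so `i = 0` (`2 h > 2 d > d + s`) and `2 m = ± s`, which gives
`s = 2`, `m = 1`. `l = 2`, `j = n = 0`: `3 h = (3 - i) d ± s`, `i = 0`, `3 m = ± s`: `m = 1`. All others are
larger than `h + d + s`. Case `m = 1`: the generators are `h - 1`, `h`, `h + 1`, `2 h`; `k + 4 = 2 h + 3`, `k - 4 = 2 h - 5`; a sum of
three or more generators (or with `2 h` and another one) is at least `3 h - 3 > 2 h + 3`, of two (or `2 h`) in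
`[2 h - 2, 2 h + 2]`, of one `≤ h + 1 < 2 h - 5`.
So `Pos.tw` gives `0 ≤ C * (2 h - p k)` with `C ≥ 1`, so `p k ≤ 2 h`; but
`p k = - (h + d) A b ≥ 2 (h + d)` (`five_val`). -/
theorem five_big {p : ℕ → ℂ} {h d : ℕ} {A b : ℤ}
    (hrec : ∀ k, 0 < k → p k = (A : ℂ) * qk p k d - (b : ℂ) * qk p k h + (A : ℂ) * qk p k (2 * h - d) -
      qk p k (2 * h))
    (hp : Pos (2 * h) p) (hd : 4 ≤ d) (hdh : d < h) (hc : Nat.Coprime d h) (hh : 8 ≤ h)
    (hAb : A * b ≤ -2) : False := by
  obtain ⟨M, hM⟩ : ∃ M, h = d + M := ⟨h - d, by omega⟩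
  have hM0 : 0 < M := by omega
  obtain ⟨q, r, hMq, hr⟩ : ∃ q r : ℕ, M = q * d + r ∧ r < d := by
    refine ⟨M / d, M % d, ?_, Nat.mod_lt _ (by omega)⟩
    have := Nat.div_add_mod M d
    rw [Nat.mul_comm] at this
    exact this.symm
  -- the choice of `s`
  obtain ⟨s, hs0, hsd, hs2, hs3, hrs, hrs'⟩ : ∃ s, 0 < s ∧ s < d ∧ s ≠ 2 * M ∧ s ≠ 3 * M ∧ r ≠ s ∧
      r + s ≠ d := by
    rcases Nat.lt_or_ge M 2 with h1 | h1
    · have hM1 : M = 1 := by omega
      have hq : q = 0 := by
        rcases Nat.eq_zero_or_pos q with h7 | h7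
        · exact h7
        · have h8 : 1 * d ≤ q * d := Nat.mul_le_mul_right d h7
          omega
      rw [hq, Nat.zero_mul] at hMq
      exact ⟨4, by omega, by omega, by omega, by omega, by omega, by omega⟩
    · by_cases h2 : r ≠ 1 ∧ r + 1 ≠ d
      · exact ⟨1, by omega, by omega, by omega, by omega, h2.1, h2.2⟩
      · exact ⟨2, by omega, by omega, by omega, by omega, by omega, by omega⟩
  have hrec' : ∀ k, 0 < k → p k = (A : ℂ) * qk p k d + (-(b : ℂ)) * qk p k h +
      (A : ℂ) * qk p k (2 * h - d) + (-1) * qk p k (2 * h) := by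
    intro k hk
    rw [hrec k hk]
    ring
  have e1 : 2 * h - d = d + 2 * M := by omega
  have hsum : ∀ i j l m : ℕ, i * d + j * h + l * (2 * h - d) + m * (2 * h) =
      (i + j + l + 2 * m) * d + (j + 2 * l + 2 * m) * M := by
    intro i j l m
    rw [e1, hM]
    ring
  have hz1 : p s = 0 := by
    refine supp hrec' (by omega) (by omega) (by omega) (by omega) hs0 ?_
    intro i j l m hk
    rw [hsum] at hk
    rcases Nat.eq_zero_or_pos (i + j + l + 2 * m) with h7 | h7
    · have h8 : j + 2 * l + 2 * m = 0 := by omega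
      rw [h7, h8] at hk
      omega
    · have h8 : 1 * d ≤ (i + j + l + 2 * m) * d := Nat.mul_le_mul_right d h7
      omega
  have hz2 : p (h + d + s) = 0 := by
    refine supp hrec' (by omega) (by omega) (by omega) (by omega) (by omega) ?_
    intro i j l m hk
    rw [hsum] at hk
    exact yBig_plus (a := i + j + l + 2 * m) (c := j + 2 * l + 2 * m) hs0 hsd hM0 hs2 hs3 hMq hr hrs hrs'
      (by omega) (by omega)
  have hz3 : p (h + d - s) = 0 := by
    refine supp hrec' (by omega) (by omega) (by omega) (by omega) (by omega) ?_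
    intro i j l m hk
    rw [hsum] at hk
    exact yBig_minus (a := i + j + l + 2 * m) (c := j + 2 * l + 2 * m) hs0 hsd hM0 hMq hr hrs hrs'
      (by omega) (by omega)
  obtain ⟨C, hC1, hC⟩ := hp.tw s (h + d) hs0 (by omega)
  rw [hz1, hz2, hz3] at hC
  have hv := five_val hrec (by omega) hdh hc
  have hv' : (p (h + d)).re = -(((h : ℝ) + d) * ((A : ℝ) * b)) := by
    rw [hv]
    have h9 : -(((h : ℂ) + d) * ((A : ℂ) * (b : ℂ))) = ((-(((h : ℝ) + d) * ((A : ℝ) * b)) : ℝ) : ℂ) := by
      push_cast
      ring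
    rw [h9, Complex.ofReal_re]
  rw [hv'] at hC
  simp only [Complex.zero_re, sub_zero, add_zero, zero_div] at hC
  have hAb' : (A : ℝ) * b ≤ -2 := by exact_mod_cast hAb
  have hh' : (8 : ℝ) ≤ h := by exact_mod_cast hh
  have hd' : (4 : ℝ) ≤ d := by exact_mod_cast hd
  push_cast at hC
  have h10 : ((2 : ℝ) * h - -(((h : ℝ) + d) * ((A : ℝ) * b))) < 0 := by nlinarith
  nlinarith

end SalemGap
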