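import Pool.Agent.Lib.MP_9599cf_ntF.WDef

/-! # Positivity of power sums, support -/

set_option autoImplicit false

namespace SalemGap

open SalemLen

open Polynomial

/-- The inequalities for the power sums `p` of the roots of a reciprocal polynomial of degree `n` all of whose roots but
`s` and `1 / s` are on the unit circle. -/
structure Pos (n : ℕ) (p : ℕ → ℂ) : Prop where
  low : ∀ k, 0 < k → -(n : ℝ) ≤ (p k).re
  tw : ∀ s k, 0 < s → s < k → ∃ C : ℝ, 1 ≤ C ∧
    0 ≤ C * ((n : ℝ) - (p k).re) - (p s).re + ((p (k + s)).re + (p (k - s)).re) / 2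

/-- The power sums vanish outside the semigroup generated by the exponents. -/
theorem supp {p : ℕ → ℂ} {x1 x2 x3 x4 : ℕ} {c1 c2 c3 c4 : ℂ}
    (hrec : ∀ k, 0 < k → p k = c1 * qk p k x1 + c2 * qk p k x2 + c3 * qk p k x3 + c4 * qk p k x4)
    (h1 : 0 < x1) (h2 : 0 < x2) (h3 : 0 < x3) (h4 : 0 < x4) {k : ℕ} (hk : 0 < k)
    (hS : ∀ i j l m : ℕ, k ≠ i * x1 + j * x2 + l * x3 + m * x4) : p k = 0 := by
  induction k using Nat.strong_induction_on with
  | _ k ih =>
    have key : ∀ x, 0 < x → (∃ i j l m : ℕ, x = i * x1 + j * x2 + l * x3 + m * x4) →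
        qk p k x = 0 := by
      intro x hx hxS
      obtain ⟨i, j, l, m, hx'⟩ := hxS
      unfold qk
      split_ifs with hlt heq
      · refine ih (k - x) (by omega) (by omega) ?_
        intro i' j' l' m' hc
        refine hS (i' + i) (j' + j) (l' + l) (m' + m) ?_
        have : k = (k - x) + x := by omega
        rw [this, hc]
        conv_lhs => rw [hx']
        ring
      · exfalso
        exact hS i j l m (by rw [← heq]; exact hx')
      · rfl
    rw [hrec k hk, key x1 h1 ⟨1, 0, 0, 0, by ring⟩, key x2 h2 ⟨0, 1, 0, 0, by ring⟩,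
      key x3 h3 ⟨0, 0, 1, 0, by ring⟩, key x4 h4 ⟨0, 0, 0, 1, by ring⟩]
    ring

end SalemGap
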