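import Pool.Agent.Lib.MP_9599cf_ntG.GDef

/-! # Four terms -/

set_option autoImplicit false

namespace SalemGap

open SalemLen

theorem qk_of_lt {p : ℕ → ℂ} {k i : ℕ} (h : i < k) : qk p k i = p (k - i) := by
  unfold qk; rw [if_pos h]

theorem qk_of_eq {p : ℕ → ℂ} {k i : ℕ} (h : i = k) : qk p k i = (k : ℂ) := by
  unfold qk; rw [if_neg (by omega), if_pos h]

theorem qk_of_gt {p : ℕ → ℂ} {k i : ℕ} (h : k < i) : qk p k i = 0 := by
  unfold qk; rw [if_neg (by omega), if_neg (by omega)]

theorem mul_cases (j x : ℕ) : j * x = 0 ∧ (j = 0 ∨ x = 0) ∨ j = 1 ∧ j * x = x ∨ 2 * x ≤ j * x ∧ 2 ≤ j := by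
  rcases j with _ | _ | j
  · left; simp
  · right; left; simp
  · right; right; constructor
    · nlinarith
    · omega

/-- The generators `d`, `n - d`, `n`. -/
theorem four_supp {p : ℕ → ℂ} {n d : ℕ} {c1 c2 c3 : ℂ}
    (hrec : ∀ k, 0 < k → p k = c1 * qk p k d + c2 * qk p k (n - d) + c3 * qk p k n)
    (hd : 0 < d) (hdn : 2 * d < n) {k : ℕ} (hk : 0 < k) (hkn : k < n) (h1 : ¬ d ∣ k)
    (h2 : k < n - d ∨ (k - (n - d) < d ∧ k ≠ n - d)) : p k = 0 := by
  refine supp (x1 := d) (x2 := n - d) (x3 := n) (x4 := n) (c1 := c1) (c2 := c2) (c3 := c3) (c4 := 0)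
    (fun k hk => by rw [hrec k hk]; ring) hd (by omega) (by omega) (by omega) hk ?_
  intro i j l m he
  have hl := mul_cases l n
  have hm := mul_cases m n
  have hl0 : l * n = 0 := by omega
  have hm0 : m * n = 0 := by omega
  rcases mul_cases j (n - d) with hj | hj | hj
  · exact h1 ⟨i, by rw [mul_comm]; omega⟩
  · have hi := mul_cases i d
    omega
  · omega

/-- PROOF. Take `s ∈ {1, 2, 3}` such that `d` divides neither `n - s` nor `n + s` (possible as `d ≥ 4`), and `k = n - d`. By `supp`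
(generators `d`, `n - d`, `n`; use `x4 = n`, `c4 = 0` or so): `p (n - 2 d) = 0` (`0 < n - 2 d < n - d`, not divisible by `d`), so
`p (n - d) = A * p (n - 2 d) + A * (n - d) = A * (n - d)`; `p s = 0` (`0 < s < d`); `p (n - d + s) = 0`: if
`i d + j (n - d) + l n = n - d + s`: `j = l = 0`: `d ∣ n + s`; `j = 1`: `i d = s`, impossible; `l = 1`: `(i + 1) d = s`,
impossible; `j ≥ 2`: `n ≤ d + s < 2 d`, impossible. `p (n - d - s) = 0` (note `n - d - s > 0`): only `j = l = 0` is possible:
`d ∣ n - s`. `Pos.tw` gives `A (n - d) ≤ n`, so `2 (n - d) ≤ n`, a contradiction to `2 d < n`. -/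
theorem four_big {p : ℕ → ℂ} {n d : ℕ} {A : ℤ}
    (hrec : ∀ k, 0 < k → p k = (A : ℂ) * qk p k d + (A : ℂ) * qk p k (n - d) - qk p k n)
    (hp : Pos n p) (hd : 4 ≤ d) (hdn : 2 * d < n) (hc : Nat.Coprime d n) (hA : 2 ≤ A) : False := by
  have hS := fun (k : ℕ) (hk : 0 < k) => four_supp (p := p) (n := n) (d := d) (c1 := A) (c2 := A)
    (c3 := -1) (fun k hk => by rw [hrec k hk]; ring) (by omega) hdn (k := k) hk
  have hnd : ¬ d ∣ n := by
    intro h
    have := Nat.eq_one_of_dvd_coprimes hc (dvd_refl d) h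
    omega
  have h0 : p (n - 2 * d) = 0 := by
    refine hS _ (by omega) (by omega) ?_ (Or.inl (by omega))
    intro h
    apply hnd
    have : n = (n - 2 * d) + 2 * d := by omega
    rw [this]
    exact dvd_add h (Dvd.intro_left 2 rfl)
  have h1 : p (n - d) = (A : ℂ) * ((n - d : ℕ) : ℂ) := by
    rw [hrec (n - d) (by omega), qk_of_lt (by omega), qk_of_eq rfl, qk_of_gt (by omega)]
    have : n - d - d = n - 2 * d := by omega
    rw [this, h0]; ring
  obtain ⟨s, hs, hs1, hs2⟩ : ∃ s : ℕ, (s = 1 ∨ s = 2) ∧ ¬ d ∣ n - s ∧ ¬ d ∣ n + s := by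
    by_contra hcon
    push Not at hcon
    have c1 := hcon 1 (Or.inl rfl)
    have c2 := hcon 2 (Or.inr rfl)
    have key : ∀ x : ℕ, 0 < x → x < 4 → ¬ d ∣ x := fun x hx hx4 h => by
      have := Nat.le_of_dvd hx h
      omega
    by_cases a1 : d ∣ n - 1
    · by_cases a2 : d ∣ n - 2
      · apply key 1 (by norm_num) (by norm_num)
        have := Nat.dvd_sub a1 a2
        have e : n - 1 - (n - 2) = 1 := by omega
        rwa [e] at this
      · have a3 := c2 a2
        apply key 3 (by norm_num) (by norm_num)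
        have := Nat.dvd_sub a3 a1
        have e : n + 2 - (n - 1) = 3 := by omega
        rwa [e] at this
    · have a1' := c1 a1
      by_cases a2 : d ∣ n - 2
      · apply key 3 (by norm_num) (by norm_num)
        have := Nat.dvd_sub a1' a2
        have e : n + 1 - (n - 2) = 3 := by omega
        rwa [e] at this
      · have a3 := c2 a2
        apply key 1 (by norm_num) (by norm_num)
        have := Nat.dvd_sub a3 a1'
        have e : n + 2 - (n + 1) = 1 := by omega
        rwa [e] at this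
  have h2 : p s = 0 := by
    refine hS _ (by omega) (by omega) ?_ (Or.inl (by omega))
    intro h
    have := Nat.le_of_dvd (by omega) h
    omega
  have h3 : p (n - d + s) = 0 := by
    refine hS _ (by omega) (by omega) ?_ (Or.inr ⟨by omega, by omega⟩)
    intro h
    apply hs2
    have : n + s = (n - d + s) + d := by omega
    rw [this]
    exact dvd_add h (dvd_refl d)
  have h4 : p (n - d - s) = 0 := by
    refine hS _ (by omega) (by omega) ?_ (Or.inl (by omega))
    intro h
    apply hs1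
    have : n - s = (n - d - s) + d := by omega
    rw [this]
    exact dvd_add h (dvd_refl d)
  obtain ⟨C, hC, hC2⟩ := hp.tw s (n - d) (by omega) (by omega)
  rw [h1, h2, h3, h4] at hC2
  have e : ((A : ℂ) * ((n - d : ℕ) : ℂ)).re = (A : ℝ) * ((n : ℝ) - d) := by
    have : ((A : ℂ) * ((n - d : ℕ) : ℂ)) = (((A : ℝ) * ((n : ℝ) - d) : ℝ) : ℂ) := by
      rw [Nat.cast_sub (by omega)]; push_cast; ring
    rw [this, Complex.ofReal_re]
  rw [e] at hC2
  simp only [Complex.zero_re] at hC2
  have hA' : (2 : ℝ) ≤ A := by exact_mod_cast hA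
  have hdn' : 2 * (d : ℝ) < n := by exact_mod_cast hdn
  have k1 : (n : ℝ) < A * ((n : ℝ) - d) := by nlinarith
  have k2 : C * ((n : ℝ) - A * ((n : ℝ) - d)) < 0 := by
    apply mul_neg_of_pos_of_neg <;> linarith
  linarith

/-- PROOF. By `supp` `p (n - 2 d) = 0` (`0 < n - 2 d < n - d`, not divisible by `d ≥ 2`), so
`p (n - d) = A * p (n - 2 d) - A * (n - d) = - A (n - d)`. `Pos.low` gives `A (n - d) ≤ n`, a contradiction to
`2 d < n`, `A ≥ 2`. -/
theorem four_neg {p : ℕ → ℂ} {n d : ℕ} {A : ℤ}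
    (hrec : ∀ k, 0 < k → p k = (A : ℂ) * qk p k d - (A : ℂ) * qk p k (n - d) + qk p k n)
    (hp : Pos n p) (hd : 2 ≤ d) (hdn : 2 * d < n) (hc : Nat.Coprime d n) (hA : 2 ≤ A) : False := by
  have hnd : ¬ d ∣ n := by
    intro h
    have := Nat.eq_one_of_dvd_coprimes hc (dvd_refl d) h
    omega
  have h0 : p (n - 2 * d) = 0 := by
    refine four_supp (p := p) (n := n) (d := d) (c1 := A) (c2 := -A) (c3 := 1)
      (fun k hk => by rw [hrec k hk]; ring) (by omega) hdn (by omega) (by omega) ?_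
      (Or.inl (by omega))
    intro h
    apply hnd
    have : n = (n - 2 * d) + 2 * d := by omega
    rw [this]
    exact dvd_add h (Dvd.intro_left 2 rfl)
  have h1 : p (n - d) = -((A : ℂ) * ((n - d : ℕ) : ℂ)) := by
    rw [hrec (n - d) (by omega), qk_of_lt (by omega), qk_of_eq rfl, qk_of_gt (by omega)]
    have : n - d - d = n - 2 * d := by omega
    rw [this, h0]; ring
  have hl := hp.low (n - d) (by omega)
  rw [h1] at hl
  have e : (-((A : ℂ) * ((n - d : ℕ) : ℂ))).re = -((A : ℝ) * ((n : ℝ) - d)) := by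
    have : (-((A : ℂ) * ((n - d : ℕ) : ℂ))) = ((-((A : ℝ) * ((n : ℝ) - d)) : ℝ) : ℂ) := by
      rw [Nat.cast_sub (by omega)]; push_cast; ring
    rw [this, Complex.ofReal_re]
  rw [e] at hl
  have hA' : (2 : ℝ) ≤ A := by exact_mod_cast hA
  have hdn' : 2 * (d : ℝ) < n := by exact_mod_cast hdn
  nlinarith

end SalemGap
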