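import Pool.Agent.Lib.MP_9599cf_ntG.GDef

/-! # The roots are closed under inversion -/

set_option autoImplicit false

namespace SalemGap

open SalemLen

open Polynomial

private theorem YInv_rev (a : ℂ) : (X - C a : ℂ[X]).reverse = C (-a) * X + C 1 := by
  ext n
  rw [coeff_reverse, natDegree_X_sub_C, coeff_sub, coeff_add, coeff_C_mul, coeff_C, coeff_X, coeff_X,
    coeff_C]
  rcases Nat.lt_or_ge 1 n with h | h
  · rw [Polynomial.revAt_eq_self_of_lt h]
    simp [show n ≠ 0 by omega, show ¬ (1 = n) by omega]
  · interval_cases n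
    · rw [revAt_le (by norm_num)]
      simp
    · rw [revAt_le (by norm_num)]
      simp

private theorem YInv_prod {Z : Multiset ℂ} (hZ : ∀ z ∈ Z, z ≠ 0) :
    ((Z.map fun z => X - C z).prod).reverse.roots = Z.map fun z => z⁻¹ := by
  induction Z using Multiset.induction_on with
  | empty =>
    rw [Multiset.map_zero, Multiset.prod_zero, Multiset.map_zero]
    have h1 : (1 : ℂ[X]).reverse = 1 := by
      ext n
      rw [coeff_reverse, natDegree_one]
      rcases Nat.eq_zero_or_pos n with h | h
      · rw [h, revAt_le (le_refl 0)]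
      · rw [Polynomial.revAt_eq_self_of_lt h]
    rw [h1, roots_one]
    rfl
  | cons a Z ih =>
    have ha : a ≠ 0 := hZ a (Multiset.mem_cons_self a Z)
    have hne : ((X - C a : ℂ[X]).reverse * ((Z.map fun z => X - C z).prod).reverse) ≠ 0 := by
      rw [← reverse_mul_of_domain, Ne, reverse_eq_zero]
      refine mul_ne_zero (X_sub_C_ne_zero a) ?_
      exact (monic_multiset_prod_of_monic Z (fun z => X - C z) fun z _ => monic_X_sub_C z).ne_zero
    rw [Multiset.map_cons, Multiset.prod_cons, reverse_mul_of_domain, roots_mul hne,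
      ih fun z hz => hZ z (Multiset.mem_cons_of_mem hz), YInv_rev,
      roots_C_mul_X_add_C _ (neg_ne_zero.2 ha), Multiset.map_cons, mul_one, inv_neg, neg_neg,
      Multiset.singleton_add]

private theorem YInv_cx_reverse (P : ℤ[X]) : cx P.reverse = (cx P).reverse := by
  have hinj : Function.Injective (Int.castRingHom ℂ) := RingHom.injective_int _
  ext n
  rw [cx, cx, coeff_map, coeff_reverse, coeff_reverse, coeff_map, natDegree_map_eq_of_injective hinj]

/-- PROOF. `cx P = ∏ (X - z)` over the roots, `cx P.reverse = ∏ (1 - z X) = ∏ (-z) * ∏ (X - 1 / z)` (no root is `0`), and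
this is `± cx P`; so the multiset of the roots is closed under `z ↦ 1 / z`. -/
theorem roots_inv {P : ℤ[X]} (hP : P.Monic) (h0 : P.coeff 0 ≠ 0)
    (hrev : P.reverse = P ∨ P.reverse = -P) : ((cx P).roots.map fun z => z⁻¹) = (cx P).roots := by
  have hm : (cx P).Monic := hP.map _
  have hz : ∀ z ∈ (cx P).roots, z ≠ 0 := by
    intro z hz hz0
    rw [mem_roots hm.ne_zero, hz0, IsRoot.def, ← coeff_zero_eq_eval_zero, cx, coeff_map] at hz
    exact h0 (Int.cast_injective (α := ℂ) (by simpa using hz))
  have hp := (IsAlgClosed.splits (cx P)).eq_prod_roots_of_monic hm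
  rw [← YInv_prod hz, ← hp, ← YInv_cx_reverse]
  rcases hrev with h | h
  · rw [h]
  · rw [h, cx, Polynomial.map_neg, roots_neg]
    rfl

end SalemGap
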