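import Pool.Agent.Lib.MP_9599cf_ntF.WDef

/-! # The length of `wp` -/

set_option autoImplicit false

namespace SalemGap

open SalemLen

open Polynomial

/-- PROOF. At most five monomials (`0`, `d`, `h`, `2 h - d`, `2 h`), all coefficients are `0`, `1` or `-1`. -/
theorem len_wp {d h : ℕ} (hd : 0 < d) (hdh : d < h) : len (wp (2 * h) d h (-1) (-1) 1) ≤ 5 := by
  have _ := hd
  have _ := hdh
  have h1 : ∀ i, ((wp (2 * h) d h (-1) (-1) 1).coeff i).natAbs ≤
      (if i = 2 * h then 1 else 0) + (if i = 2 * h - d then 1 else 0) + (if i = h then 1 else 0) +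
        (if i = d then 1 else 0) + (if i = 0 then 1 else 0) := by
    intro i
    unfold wp
    rw [coeff_add, coeff_add, coeff_add, coeff_add, coeff_C_mul, coeff_C_mul, coeff_C_mul,
      coeff_X_pow, coeff_X_pow, coeff_X_pow, coeff_X_pow, coeff_C]
    split_ifs <;> simp
  have h2 : ∀ (S : Finset ℕ) (e : ℕ), ∑ i ∈ S, (if i = e then 1 else 0) ≤ 1 := by
    intro S e
    rw [Finset.sum_ite_eq']
    split_ifs <;> simp
  calc len (wp (2 * h) d h (-1) (-1) 1)
      = ∑ i ∈ (wp (2 * h) d h (-1) (-1) 1).support,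
        ((wp (2 * h) d h (-1) (-1) 1).coeff i).natAbs := rfl
    _ ≤ ∑ i ∈ (wp (2 * h) d h (-1) (-1) 1).support,
      ((if i = 2 * h then 1 else 0) + (if i = 2 * h - d then 1 else 0) + (if i = h then 1 else 0) +
        (if i = d then 1 else 0) + (if i = 0 then 1 else 0)) :=
        Finset.sum_le_sum fun i _ => h1 i
    _ ≤ 1 + 1 + 1 + 1 + 1 := by
        rw [Finset.sum_add_distrib, Finset.sum_add_distrib, Finset.sum_add_distrib,
          Finset.sum_add_distrib]
        exact add_le_add (add_le_add (add_le_add (add_le_add (h2 _ _) (h2 _ _)) (h2 _ _))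
          (h2 _ _)) (h2 _ _)

/-- PROOF. The reverse and the constant coefficient of `wp`. -/
theorem wp_coeff_zero {n d h : ℕ} {a b e : ℤ} (hd : 0 < d) (hdn : 2 * d < n) (he : e = 1 ∨ e = -1)
    (hh : 0 < h ∨ b = 0) : (wp n d h a b e).coeff 0 = e := by
  have _ := he
  have h1 : (0 : ℕ) ≠ n := by omega
  have h2 : (0 : ℕ) ≠ n - d := by omega
  have h3 : (0 : ℕ) ≠ d := by omega
  have h4 : b * (if (0 : ℕ) = h then 1 else 0) = 0 := by
    rcases hh with hh | hh
    · rw [if_neg (by omega), mul_zero]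
    · rw [hh, zero_mul]
  unfold wp
  rw [coeff_add, coeff_add, coeff_add, coeff_add, coeff_C_mul, coeff_C_mul, coeff_C_mul,
    coeff_X_pow, coeff_X_pow, coeff_X_pow, coeff_X_pow, coeff_C, if_neg h1, if_neg h2, if_neg h3,
    h4, if_pos rfl]
  ring

end SalemGap
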