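import Mathlib

/-! # Elementary inequalities B -/

set_option autoImplicit false

namespace SalemGap

private theorem yRealB_key {s A c w : ℝ}
    (h0 : s ^ 2 * w ^ 2 - A * (s * w ^ 2) + (2 * A - 2 - c) * (s * w) - A * s + 1 = 0) :
    (s * w - 1) ^ 2 = A * s * (w - 1) ^ 2 + c * (s * w) := by
  linear_combination h0

private theorem yRealB_big {s A c w : ℝ} (hs : 1 < s) (hs2 : s < 6 / 5) (hA : 2 ≤ A)
    (hc : 0 ≤ c) (hw : 3 * (s - 1) ≤ w - 1)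
    (h0 : (s * w - 1) ^ 2 = A * s * (w - 1) ^ 2 + c * (s * w)) : False := by
  have hw1 : 0 < w - 1 := by linarith
  have h1 : s * w - 1 ≤ (s + 1 / 3) * (w - 1) := by nlinarith
  have h2 : 0 ≤ s * w - 1 := by nlinarith
  have h3 : (s * w - 1) ^ 2 ≤ ((s + 1 / 3) * (w - 1)) ^ 2 := pow_le_pow_left₀ h2 h1 2
  have h4 : 0 < (w - 1) ^ 2 := by positivity
  have h5 : 2 * s * (w - 1) ^ 2 ≤ A * s * (w - 1) ^ 2 := by
    apply mul_le_mul_of_nonneg_right _ h4.le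
    nlinarith
  have h6 : 0 ≤ c * (s * w) := by
    apply mul_nonneg hc
    have : 0 < w := by linarith
    positivity
  have h7 : 2 * s * (w - 1) ^ 2 ≤ (s + 1 / 3) ^ 2 * (w - 1) ^ 2 := by
    have e : ((s + 1 / 3) * (w - 1)) ^ 2 = (s + 1 / 3) ^ 2 * (w - 1) ^ 2 := by ring
    rw [← e]
    linarith
  have h8 : 2 * s ≤ (s + 1 / 3) ^ 2 := le_of_mul_le_mul_right h7 h4
  nlinarith

private theorem yRealB_three {s : ℝ} {A c : ℤ} (hs : 1 < s) (hs2 : s < 6 / 5) (hA : 2 ≤ A)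
    (hc : 0 ≤ c)
    (h0 : (s * s ^ 2 - 1) ^ 2 = (A : ℝ) * s * (s ^ 2 - 1) ^ 2 + (c : ℝ) * (s * s ^ 2)) : False := by
  have hA' : (2 : ℝ) ≤ A := by exact_mod_cast hA
  have hs0 : 0 < s := by linarith
  rcases hc.eq_or_lt with hc0 | hc1
  · rw [← hc0] at h0
    have h1 : (s - 1) ^ 2 * (s ^ 2 + s + 1) ^ 2 = (s - 1) ^ 2 * ((A : ℝ) * s * (s + 1) ^ 2) := by
      push_cast at h0
      linear_combination h0
    have h2 : (s - 1) ^ 2 ≠ 0 := by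
      have : 0 < s - 1 := by linarith
      positivity
    have h3 := mul_left_cancel₀ h2 h1
    rcases hA.eq_or_lt with hA2 | hA3
    · rw [← hA2] at h3
      push_cast at h3
      nlinarith [sq_nonneg (s ^ 2 - 1 / 2)]
    · have hA3' : (3 : ℝ) ≤ A := by exact_mod_cast hA3
      have h4 : 3 * (s * (s + 1) ^ 2) ≤ (A : ℝ) * s * (s + 1) ^ 2 := by
        have : 0 ≤ s * (s + 1) ^ 2 := by positivity
        nlinarith
      have h5 : s ^ 4 - s ^ 3 - 3 * s ^ 2 - s + 1 < 0 := by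
        have h6 : s ^ 2 < 3 / 2 := by nlinarith
        have h7 : s ^ 4 < 9 / 4 := by nlinarith
        have h8 : 1 < s ^ 2 := by nlinarith
        have h9 : 1 < s ^ 3 := by nlinarith
        nlinarith
      nlinarith
  · have hc1' : (1 : ℝ) ≤ c := by exact_mod_cast hc1
    have h6 : s ^ 2 < 144 / 100 := by nlinarith
    have h7 : s * s ^ 2 < 173 / 100 := by nlinarith
    have h8 : 1 < s * s ^ 2 := by nlinarith
    have h9 : 0 ≤ (A : ℝ) * s * (s ^ 2 - 1) ^ 2 := by positivity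
    have h10 : s * s ^ 2 ≤ (c : ℝ) * (s * s ^ 2) := by nlinarith
    nlinarith

private theorem yRealB_two {s : ℝ} {A c : ℤ} (hs : 1 < s) (hs2 : s < 6 / 5) (hA : 2 ≤ A)
    (hc : 0 ≤ c)
    (h0 : (s * s - 1) ^ 2 = (A : ℝ) * s * (s - 1) ^ 2 + (c : ℝ) * (s * s)) : False := by
  have hA' : (2 : ℝ) ≤ A := by exact_mod_cast hA
  have hs0 : 0 < s := by linarith
  rcases hc.eq_or_lt with hc0 | hc1
  · rw [← hc0] at h0
    have h1 : (s - 1) ^ 2 * (s + 1) ^ 2 = (s - 1) ^ 2 * ((A : ℝ) * s) := by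
      push_cast at h0
      linear_combination h0
    have h2 : (s - 1) ^ 2 ≠ 0 := by
      have : 0 < s - 1 := by linarith
      positivity
    have h3 := mul_left_cancel₀ h2 h1
    rcases le_or_gt A 4 with hA4 | hA5
    · have hA4' : (A : ℝ) ≤ 4 := by exact_mod_cast hA4
      have h4 : 0 < (s - 1) ^ 2 := by
        have : 0 < s - 1 := by linarith
        positivity
      nlinarith
    · have hA5' : (5 : ℝ) ≤ A := by exact_mod_cast hA5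
      nlinarith
  · have hc1' : (1 : ℝ) ≤ c := by exact_mod_cast hc1
    have h6 : s * s < 144 / 100 := by nlinarith
    have h8 : 1 < s * s := by nlinarith
    have h9 : 0 ≤ (A : ℝ) * s * (s - 1) ^ 2 := by positivity
    have h10 : s * s ≤ (c : ℝ) * (s * s) := by nlinarith
    nlinarith

/-- PROOF. Let `A = -a ≥ 2` and `c = 2 A - 2 - b ≥ 0` (an integer). The equation is
`(s ^ h - 1) ^ 2 = A s (s ^ (h - 1) - 1) ^ 2 + c s ^ h`. (1) `h ≥ 4`: let `w = s ^ (h - 1)`, `w - 1 ≥ 3 (s - 1)` (Bernoulli),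
so `s w - 1 = s (w - 1) + (s - 1) ≤ (s + 1 / 3) (w - 1)`, so `2 s (w - 1) ^ 2 ≤ (s + 1 / 3) ^ 2 (w - 1) ^ 2`,
`2 s ≤ (s + 1 / 3) ^ 2`, false for `1 < s < 1.19`. (2) `h = 3`: if `c ≥ 1`, `(s ^ 3 - 1) ^ 2 ≥ s ^ 3`, false
(`s ^ 3 < 1.7`). If `c = 0`, divide by `(s - 1) ^ 2`: `(s ^ 2 + s + 1) ^ 2 = A s (s + 1) ^ 2`; `A = 2` gives
`s ^ 4 - s ^ 2 + 1 = 0`, `A ≥ 3` gives `s ^ 4 - s ^ 3 - 3 s ^ 2 - s + 1 ≥ 0`, both false. (3) `h = 2`: if `c ≥ 1`,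
`(s ^ 2 - 1) ^ 2 ≥ s ^ 2`, false. If `c = 0`: `(s + 1) ^ 2 = A s`; `A ≤ 4` gives `(s - 1) ^ 2 ≤ 0`, `A ≥ 5` gives
`s ^ 2 - 3 s + 1 ≥ 0`, false for `1 < s < 1.19`. -/
theorem real_one {s : ℝ} {h : ℕ} {a b : ℤ} (hs : 1 < s) (hs2 : s < 6 / 5) (hh : 2 ≤ h)
    (ha : a ≤ -2) (hb : b ≤ -2 * a - 2) :
    s ^ (2 * h) + a * s ^ (2 * h - 1) + b * s ^ h + a * s + 1 ≠ 0 := by
  intro h0
  obtain ⟨A, hA⟩ : ∃ A : ℤ, A = -a := ⟨_, rfl⟩
  obtain ⟨c, hc⟩ : ∃ c : ℤ, c = 2 * A - 2 - b := ⟨_, rfl⟩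
  have hA2 : 2 ≤ A := by omega
  have hc0 : 0 ≤ c := by omega
  have ha' : (a : ℝ) = -(A : ℝ) := by rw [hA]; push_cast; ring
  have hb' : (b : ℝ) = 2 * (A : ℝ) - 2 - (c : ℝ) := by rw [hc]; push_cast; ring
  obtain ⟨g, rfl⟩ : ∃ g, h = g + 1 := ⟨h - 1, by omega⟩
  have e1 : s ^ (2 * (g + 1)) = s ^ 2 * (s ^ g) ^ 2 := by ring
  have e2 : s ^ (2 * (g + 1) - 1) = s * (s ^ g) ^ 2 := by
    have : 2 * (g + 1) - 1 = 2 * g + 1 := by omega
    rw [this]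
    ring
  have e3 : s ^ (g + 1) = s * s ^ g := by ring
  have hkey : (s * s ^ g - 1) ^ 2 = (A : ℝ) * s * (s ^ g - 1) ^ 2 + (c : ℝ) * (s * s ^ g) := by
    apply yRealB_key
    rw [e1, e2, e3, ha', hb'] at h0
    linear_combination h0
  have hA' : (2 : ℝ) ≤ A := by exact_mod_cast hA2
  have hc' : (0 : ℝ) ≤ c := by exact_mod_cast hc0
  rcases Nat.lt_or_ge g 3 with hg | hg
  · interval_cases g
    · omega
    · rw [pow_one] at hkey
      exact yRealB_two hs hs2 hA2 hc0 hkey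
    · exact yRealB_three hs hs2 hA2 hc0 hkey
  · refine yRealB_big hs hs2 hA' hc' ?_ hkey
    have h3 : s ^ 3 ≤ s ^ g := pow_le_pow_right₀ hs.le hg
    nlinarith [sq_nonneg (s - 1)]

end SalemGap
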