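import Mathlib

/-! # Elementary inequalities C -/

set_option autoImplicit false

namespace SalemGap

private theorem yRealC_three {s : ℝ} {a : ℤ} (hs : 1 < s) (hs2 : s < 6 / 5)
    (ha : a ≤ -2) : s ^ 3 + a * s ^ 2 - a * s - 1 ≠ 0 := by
  intro h
  have h1 : (s - 1) * (s ^ 2 + s + 1 + a * s) = 0 := by linear_combination h
  have h2 : s ^ 2 + s + 1 + a * s = 0 := by
    rcases mul_eq_zero.1 h1 with h3 | h3
    · linarith
    · exact h3
  rcases le_or_gt (-3) a with h3 | h3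
  · have h4 : (-3 : ℝ) ≤ (a : ℝ) := by exact_mod_cast h3
    have h5 : 0 < (s - 1) ^ 2 := by
      have : 0 < s - 1 := by linarith
      positivity
    nlinarith
  · have h3' : a ≤ -4 := by omega
    have h4 : (a : ℝ) ≤ -4 := by exact_mod_cast h3'
    nlinarith

private theorem yRealC_four {s : ℝ} {a : ℤ} (hs : 1 < s) (hs2 : s < 6 / 5)
    (ha : a ≤ -2) : s ^ 4 + a * s ^ 3 - a * s - 1 ≠ 0 := by
  intro h
  have h1 : (s ^ 2 - 1) * (s ^ 2 + 1 + a * s) = 0 := by linear_combination h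
  have h2 : s ^ 2 + 1 + a * s = 0 := by
    rcases mul_eq_zero.1 h1 with h3 | h3
    · nlinarith
    · exact h3
  rcases le_or_gt (-2) a with h3 | h3
  · have h4 : (-2 : ℝ) ≤ (a : ℝ) := by exact_mod_cast h3
    have h5 : 0 < (s - 1) ^ 2 := by
      have : 0 < s - 1 := by linarith
      positivity
    nlinarith
  · have h3' : a ≤ -3 := by omega
    have h4 : (a : ℝ) ≤ -3 := by exact_mod_cast h3'
    nlinarith

private theorem yRealC_five {s w : ℝ} {a : ℤ} (hs : 1 < s) (hs2 : s < 6 / 5)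
    (hw : s ^ 3 ≤ w) (ha : a ≤ -2) : w * s ^ 2 + a * (w * s) - a * s - 1 ≠ 0 := by
  intro h
  have h4 : (a : ℝ) ≤ -2 := by exact_mod_cast ha
  have h5 : 3 * (s - 1) ≤ w - 1 := by nlinarith [mul_pos (sub_pos.2 hs) (sub_pos.2 hs)]
  have h6 : 0 ≤ s * (w - 1) := by
    have : 0 ≤ w - 1 := by linarith
    exact mul_nonneg (by linarith) this
  have h7 : 2 * (s * (w - 1)) ≤ s ^ 2 * (w - 1) + (s ^ 2 - 1) := by
    have h8 : s ^ 2 * (w - 1) + (s ^ 2 - 1) = (-(a : ℝ)) * (s * (w - 1)) := by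
      linear_combination h
    rw [h8]
    exact mul_le_mul_of_nonneg_right (by linarith) h6
  have h9 : (2 * s - s ^ 2) * (w - 1) ≤ s ^ 2 - 1 := by linarith
  have h10 : 0 < 2 * s - s ^ 2 := by nlinarith
  have h11 : (2 * s - s ^ 2) * (3 * (s - 1)) ≤ s ^ 2 - 1 :=
    (mul_le_mul_of_nonneg_left h5 h10.le).trans h9
  have h12 : (s - 1) * (3 * (2 * s - s ^ 2) - (s + 1)) ≤ 0 := by nlinarith
  have h13 : 0 < 3 * (2 * s - s ^ 2) - (s + 1) := by nlinarith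
  have h14 : 0 < (s - 1) * (3 * (2 * s - s ^ 2) - (s + 1)) :=
    mul_pos (by linarith) h13
  linarith

/-- PROOF. Let `A = -a ≥ 2`. The equation is `s ^ n - 1 = A s (s ^ (n - 2) - 1)`. `n = 3`: divide by `s - 1`:
`s ^ 2 + s + 1 = A s`; `A ≤ 3` gives `(s - 1) ^ 2 ≤ 0`, `A ≥ 4` gives `s ^ 2 - 3 s + 1 ≥ 0`, false. `n = 4`: divide by
`s ^ 2 - 1`: `s ^ 2 + 1 = A s`; `A = 2`: `(s - 1) ^ 2 = 0`; `A ≥ 3`: `s ^ 2 - 3 s + 1 ≥ 0`, false. `n ≥ 5`: let `w = s ^ (n - 2)`,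
`w - 1 ≥ 3 (s - 1)`; `s ^ 2 w - 1 = s ^ 2 (w - 1) + (s - 1) (s + 1) ≤ (w - 1) (s ^ 2 + (s + 1) / 3)`, so
`2 s ≤ s ^ 2 + (s + 1) / 3`, false for `1 < s < 1.19`. -/
theorem real_neg {s : ℝ} {n : ℕ} {a : ℤ} (hs : 1 < s) (hs2 : s < 6 / 5) (hn : 3 ≤ n)
    (ha : a ≤ -2) : s ^ n + a * s ^ (n - 1) - a * s - 1 ≠ 0 := by
  rcases Nat.lt_or_ge n 5 with h5 | h5
  · have h34 : n = 3 ∨ n = 4 := by omega
    rcases h34 with rfl | rfl
    · exact yRealC_three hs hs2 ha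
    · exact yRealC_four hs hs2 ha
  · have e1 : s ^ n = s ^ (n - 2) * s ^ 2 := by
      rw [← pow_add]
      congr 1
      omega
    have e2 : s ^ (n - 1) = s ^ (n - 2) * s := by
      rw [← pow_succ]
      congr 1
      omega
    rw [e1, e2]
    exact yRealC_five hs hs2 (pow_le_pow_right₀ hs.le (by omega)) ha

/-- PROOF. `s ^ n - s ^ (n - d) - s ^ d + 1 = (s ^ (n - d) - 1) (s ^ d - 1) > 0`. -/
theorem real_fac {s : ℝ} {n d h : ℕ} {b : ℤ} (hs : 1 < s) (hd : 0 < d) (hdn : 2 * d < n) (hb : 0 ≤ b) :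
    0 < s ^ n - s ^ (n - d) + b * s ^ h - s ^ d + 1 := by
  have e1 : s ^ n = s ^ (n - d) * s ^ d := by
    rw [← pow_add]
    congr 1
    omega
  have h1 : 1 < s ^ (n - d) := one_lt_pow₀ hs (by omega)
  have h2 : 1 < s ^ d := one_lt_pow₀ hs (by omega)
  have h3 : 0 < (s ^ (n - d) - 1) * (s ^ d - 1) := mul_pos (by linarith) (by linarith)
  have h4 : (0 : ℝ) ≤ (b : ℝ) := by exact_mod_cast hb
  have h5 : 0 ≤ (b : ℝ) * s ^ h := mul_nonneg h4 (pow_nonneg (by linarith) _)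
  rw [e1]
  linarith

/-- PROOF. `s ^ n - s ^ (n - d) + s ^ d - 1 = (s ^ (n - d) + 1) (s ^ d - 1) > 0`. -/
theorem real_fac_neg {s : ℝ} {n d : ℕ} (hs : 1 < s) (hd : 0 < d) (hdn : 2 * d < n) :
    0 < s ^ n - s ^ (n - d) + s ^ d - 1 := by
  have e1 : s ^ n = s ^ (n - d) * s ^ d := by
    rw [← pow_add]
    congr 1
    omega
  have h1 : 1 < s ^ (n - d) := one_lt_pow₀ hs (by omega)
  have h2 : 1 < s ^ d := one_lt_pow₀ hs (by omega)
  have h3 : 0 < (s ^ (n - d) + 1) * (s ^ d - 1) := mul_pos (by linarith) (by linarith)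
  rw [e1]
  linarith

end SalemGap
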