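import Pool.Agent.Lib.MP_9599cf_ntF.WDef
import Pool.Agent.Lib.MP_9599cf_ntL.Factor
import Pool.Agent.Lib.MP_9599cf_ntL.Recip
import Pool.Agent.Lib.MP_9599cf_ntL.MinPoly

/-! # The sign of `a`, and the roots for `d = 1` -/

set_option autoImplicit false

namespace SalemGap

open SalemLen

open Polynomial

/-- PROOF. `IsSalem` gives a root `z` of the minimal polynomial of `s` with `‖z‖ = 1`, and the minimal polynomial divides `P`
(`exists_factor`); see the beginning of the proof of `card_cases` in `MP_9599cf_ntL/Card4.lean`. -/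
theorem circle_root {s : ℝ} (hs : IsSalem s) {P : ℤ[X]} (hP : P.Monic) (h0 : P.coeff 0 ≠ 0)
    (hd : Dom P s) : ∃ z : ℂ, ‖z‖ = 1 ∧ (cx P).eval z = 0 := by
  obtain ⟨M, hM, -, -, -⟩ := exists_factor hs.1 hP h0 hd
  obtain ⟨z, hz, hz1⟩ := hs.2.2.2
  refine ⟨z, hz1, ?_⟩
  rw [minpoly.isIntegrallyClosed_eq_field_fractions' ℚ hs.1, aeval_map_algebraMap] at hz
  have h1 : (cx (minpoly ℤ s)).eval z = 0 := by
    rw [cx, eval_map]
    exact hz
  have h2 : cx P = cx (minpoly ℤ s) * cx M := by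
    rw [cx, hM]
    exact Polynomial.map_mul _
  rw [h2, eval_mul, h1, zero_mul]

private theorem ySign_sum {s : ℝ} (hs : 1 < s) {i m : ℕ} (hm : 0 < m) :
    2 * s ^ (i + m) < s ^ (i + 2 * m) + s ^ i := by
  have h1 : 1 < s ^ m := one_lt_pow₀ hs hm.ne'
  have h2 : 0 < s ^ i := pow_pos (by linarith) i
  have h3 : 0 < (s ^ m - 1) ^ 2 := pow_pos (by linarith) 2
  have h4 := mul_pos h2 h3
  have h5 : s ^ i * (s ^ m - 1) ^ 2 = s ^ (i + 2 * m) + s ^ i - 2 * s ^ (i + m) := by ring
  linarith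

/-- PROOF. Suppose `a > 0`. Let `z` be the root on the unit circle, `(cx P).eval s = 0`. If `b = 0` then
`s ^ n + a s ^ (n - d) + e a s ^ d + e > 0` (for `e = -1`: `s ^ n > 1`, `s ^ (n - d) > s ^ d`), a contradiction. If `b ≠ 0`, `e = 1`,
`n = 2 h`, `m = h - d`: dividing by `s ^ h`: `- b = s ^ h + s⁻¹ ^ h + a (s ^ m + s⁻¹ ^ m) > 2 + 2 a`; dividing by `z ^ h`:
`- b = z ^ h + z⁻¹ ^ h + a (z ^ m + z⁻¹ ^ m)` has absolute value at most `2 + 2 a`, a contradiction. -/
theorem a_neg {s : ℝ} (hs : IsSalem s) {n d h : ℕ} {a b e : ℤ} (hd : 0 < d) (hdn : 2 * d < n)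
    (hh : h < n) (ha : a ≠ 0) (he : e = 1 ∨ e = -1) (hb : b = 0 ∨ (e = 1 ∧ n = 2 * h))
    (hP : (wp n d h a b e).Monic) (h0 : (wp n d h a b e).coeff 0 ≠ 0) (hD : Dom (wp n d h a b e) s) :
    a < 0 := by
  by_contra hcon
  have ha1 : 0 < a := by omega
  have haR : (1 : ℝ) ≤ a := by exact_mod_cast (show (1 : ℤ) ≤ a by omega)
  have hs1 : 1 < s := hs.2.1
  have hs0 : 0 < s := by linarith
  -- the value at `s`
  have hsC : (cx (wp n d h a b e)).eval (s : ℂ) = 0 := by
    obtain ⟨Q, hQ, -⟩ := hD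
    rw [hQ, eval_mul, eval_sub, eval_X, eval_C, sub_self, zero_mul]
  rw [wp_eval] at hsC
  have hsR : s ^ n + a * s ^ (n - d) + b * s ^ h + e * a * s ^ d + e = 0 := by
    have h1 : ((s ^ n + a * s ^ (n - d) + b * s ^ h + e * a * s ^ d + e : ℝ) : ℂ) = 0 := by
      push_cast
      exact hsC
    exact Complex.ofReal_eq_zero.1 h1
  obtain ⟨z, hz1, hz⟩ := circle_root hs hP h0 hD
  rw [wp_eval] at hz
  have hpn : 1 < s ^ n := one_lt_pow₀ hs1 (by omega)
  have hpd : 0 < s ^ d := pow_pos hs0 d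
  have hpm : s ^ d < s ^ (n - d) := pow_lt_pow_right₀ hs1 (by omega)
  by_cases hb0 : b = 0
  · rw [hb0, Int.cast_zero, zero_mul, add_zero] at hsR
    rcases he with rfl | rfl
    · push_cast at hsR
      have h1 : 0 < (a : ℝ) * s ^ (n - d) := mul_pos (by linarith) (by linarith)
      have h2 : 0 < (a : ℝ) * s ^ d := mul_pos (by linarith) hpd
      linarith
    · push_cast at hsR
      have h1 : (a : ℝ) * s ^ d < a * s ^ (n - d) := mul_lt_mul_of_pos_left hpm (by linarith)
      linarith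
  · rcases hb with hb | ⟨rfl, rfl⟩
    · exact hb0 hb
    · have hdh : d < h := by omega
      push_cast at hsR hz
      have hph : 0 < s ^ h := pow_pos hs0 h
      -- the real inequality
      have h1 : 2 * s ^ h < s ^ (2 * h) + 1 := by
        have := ySign_sum hs1 (i := 0) (m := h) (by omega)
        rw [Nat.zero_add, Nat.zero_add, pow_zero] at this
        exact this
      have h2 : 2 * s ^ h < s ^ (2 * h - d) + s ^ d := by
        have := ySign_sum hs1 (i := d) (m := h - d) (by omega)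
        have e1 : d + (h - d) = h := by omega
        have e2 : d + 2 * (h - d) = 2 * h - d := by omega
        rw [e1, e2] at this
        exact this
      have h3 : (2 + 2 * (a : ℝ)) * s ^ h < -b * s ^ h := by
        have h4 : (a : ℝ) * (2 * s ^ h) < a * (s ^ (2 * h - d) + s ^ d) :=
          mul_lt_mul_of_pos_left h2 (by linarith)
        nlinarith
      have h4 : 2 + 2 * (a : ℝ) < -b := lt_of_mul_lt_mul_right h3 hph.le
      -- the complex inequality
      have h5 : (b : ℂ) * z ^ h = -(z ^ (2 * h) + a * z ^ (2 * h - d) + a * z ^ d + 1) := by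
        linear_combination hz
      have h6 : ‖(b : ℂ) * z ^ h‖ = |(b : ℝ)| := by
        rw [norm_mul, norm_pow, hz1, one_pow, mul_one, Complex.norm_intCast]
      have hna : ‖(a : ℂ)‖ = a := by
        rw [Complex.norm_intCast, abs_of_pos (by linarith)]
      have h7 : ‖(b : ℂ) * z ^ h‖ ≤ 2 + 2 * (a : ℝ) := by
        rw [h5, norm_neg]
        have n1 : ‖z ^ (2 * h)‖ = 1 := by rw [norm_pow, hz1, one_pow]
        have n2 : ‖(a : ℂ) * z ^ (2 * h - d)‖ = a := by
          rw [norm_mul, norm_pow, hz1, one_pow, mul_one, hna]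
        have n3 : ‖(a : ℂ) * z ^ d‖ = a := by
          rw [norm_mul, norm_pow, hz1, one_pow, mul_one, hna]
        have n4 : ‖(1 : ℂ)‖ = 1 := norm_one
        have t1 := norm_add_le (z ^ (2 * h) + a * z ^ (2 * h - d) + a * z ^ d) (1 : ℂ)
        have t2 := norm_add_le (z ^ (2 * h) + a * z ^ (2 * h - d)) ((a : ℂ) * z ^ d)
        have t3 := norm_add_le (z ^ (2 * h)) ((a : ℂ) * z ^ (2 * h - d))
        rw [n1, n2] at t3
        rw [n3] at t2
        rw [n4] at t1
        linarith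
      rw [h6] at h7
      have h8 := neg_le_abs (b : ℝ)
      linarith

end SalemGap
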