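import Pool.Agent.Lib.MP_9599cf_ntG.GVal
import Pool.Agent.Lib.MP_9599cf_ntG.GFour

/-! # Five terms: `d = 2`, `d = 3`, and the power sums for `d = 1` -/

set_option autoImplicit false

namespace SalemGap

open SalemLen

theorem five_supp {p : ℕ → ℂ} {h d : ℕ} {c1 c2 c3 c4 : ℂ}
    (hrec : ∀ k, 0 < k → p k = c1 * qk p k d + c2 * qk p k h + c3 * qk p k (2 * h - d) +
      c4 * qk p k (2 * h))
    (hd : 0 < d) (hdh : d < h) {k : ℕ} (hk : 0 < k) (hk2 : k < 2 * h - d) (h1 : ¬ d ∣ k)
    (h2 : h ≤ k → ¬ d ∣ k - h) : p k = 0 := by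
  refine supp (x1 := d) (x2 := h) (x3 := 2 * h - d) (x4 := 2 * h) (c1 := c1) (c2 := c2) (c3 := c3)
    (c4 := c4) hrec hd (by omega) (by omega) (by omega) hk ?_
  intro i j l m he
  have hl := mul_cases l (2 * h - d)
  have hm := mul_cases m (2 * h)
  have hl0 : l * (2 * h - d) = 0 := by omega
  have hm0 : m * (2 * h) = 0 := by omega
  rcases mul_cases j h with hj | hj | hj
  · exact h1 ⟨i, by rw [mul_comm]; omega⟩
  · exact h2 (by omega) ⟨i, by rw [mul_comm]; omega⟩
  · omega

/-- PROOF. `five_val` (`A = 1`): `p (h + d) = - (h + d) b ≥ 2 (h + d)`. `p 1 = 0` by `supp`.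
`d = 2`: `h` is odd, `h ≥ 9`. For even `k`, `0 < k < 2 h - 2`: `p k = 2`, by induction: `p 2 = 2`,
`p k = p (k - 2) - b * p (k - h)`, the second term only for `k > h`, where `k - h` is odd and less than `h`, so
`p (k - h) = 0` by `supp`. So `p (h + 1) = p (h + 3) = 2` (`h + 3 < 2 h - 2`). `Pos.tw` with `s = 1`, `k = h + 2`:
`0 ≤ C * (2 h - p k) + 2 ≤ - 4 C + 2`, a contradiction.
`d = 3`: `h` is not divisible by `3`. For `3 ∣ k`, `0 < k < 2 h - 3`: `p k = 3`, in the same way (`k - h`, if positive, is not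
divisible by `3` and less than `h - 3`). `k = h + 2` and `k = h + 4`: one of them is divisible by `3`, so `p = 3`, the other is
`≡ 2 h` mod `3` and `< 2 h - 3`, so `p = 0` by `supp`. `Pos.tw` with `s = 1`, `k = h + 3`:
`0 ≤ C * (2 h - p k) + 3 / 2 ≤ - 6 C + 3 / 2`, a contradiction. -/
theorem five_small {p : ℕ → ℂ} {h d : ℕ} {b : ℤ}
    (hrec : ∀ k, 0 < k → p k = qk p k d - (b : ℂ) * qk p k h + qk p k (2 * h - d) - qk p k (2 * h))
    (hp : Pos (2 * h) p) (hd : d = 2 ∨ d = 3) (hc : Nat.Coprime d h) (hh : 8 ≤ h) (hb : b ≤ -2) :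
    False := by
  have hdh : ¬ d ∣ h := by
    intro h'
    have := Nat.eq_one_of_dvd_coprimes hc (dvd_refl d) h'
    omega
  have hS := fun (k : ℕ) (hk : 0 < k) => five_supp (p := p) (h := h) (d := d) (c1 := 1) (c2 := -b)
    (c3 := 1) (c4 := -1) (fun k hk => by rw [hrec k hk]; ring) (by omega) (by omega) (k := k) hk
  have hd0 : 0 < d := by omega
  -- multiples of `d`
  have hM : ∀ i : ℕ, 0 < i → i * d < 2 * h - d → p (i * d) = d := by
    intro i
    induction i with
    | zero => intro h0; omega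
    | succ i ih =>
      intro _ hlt
      rw [hrec _ (by positivity), qk_of_gt (i := 2 * h - d) (by omega), qk_of_gt (i := 2 * h) (by omega)]
      have hq : qk p ((i + 1) * d) h = 0 := by
        rcases lt_trichotomy ((i + 1) * d) h with h1 | h1 | h1
        · exact qk_of_gt h1
        · exact absurd (Dvd.intro_left _ h1) hdh
        · rw [qk_of_lt h1]
          refine hS _ (by omega) (by omega) ?_ (fun h2 => by omega)
          intro h2
          apply hdh
          have e : h = (i + 1) * d - ((i + 1) * d - h) := by omega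
          rw [e]
          exact Nat.dvd_sub (Dvd.intro_left _ rfl) h2
      rw [hq]
      rcases Nat.eq_zero_or_pos i with h0 | h0
      · subst h0
        rw [qk_of_eq (by omega)]
        push_cast; ring
      · have e : (i + 1) * d = i * d + d := by ring
        have hid : 0 < i * d := by positivity
        rw [qk_of_lt (by omega)]
        have e2 : (i + 1) * d - d = i * d := by omega
        rw [e2, ih h0 (by omega)]
        ring
  have hM' : ∀ k : ℕ, 0 < k → d ∣ k → k < 2 * h - d → p k = d := by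
    intro k hk hdk hlt
    obtain ⟨i, rfl⟩ := hdk
    have e : d * i = i * d := by ring
    rw [e] at hlt ⊢
    refine hM i ?_ hlt
    rcases Nat.eq_zero_or_pos i with h0 | h0
    · subst h0; omega
    · exact h0
  have hv : p (h + d) = -(((h : ℂ) + d) * (1 * b)) :=
    five_val (fun k hk => by rw [hrec k hk]; ring) (by omega) (by omega) hc
  have h1 : p 1 = 0 := by
    refine hS 1 (by norm_num) (by omega) ?_ (fun h2 => by omega)
    intro h2
    have := Nat.le_of_dvd (by norm_num) h2
    omega
  obtain ⟨C, hC, hC2⟩ := hp.tw 1 (h + d) (by norm_num) (by omega)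
  have hre : (p (h + d)).re = -((h + d : ℝ) * b) := by
    have : p (h + d) = ((-((h + d : ℝ) * b) : ℝ) : ℂ) := by rw [hv]; push_cast; ring
    rw [this, Complex.ofReal_re]
  have hb' : (b : ℝ) ≤ -2 := by exact_mod_cast hb
  have hh' : (8 : ℝ) ≤ h := by exact_mod_cast hh
  have hd' : (0 : ℝ) < d := by exact_mod_cast hd0
  rw [hre, h1] at hC2
  have k1 : 2 * ((h : ℝ) + d) ≤ -((h + d : ℝ) * b) := by nlinarith
  have k2 : C * (((2 * h : ℕ) : ℝ) - -((h + d : ℝ) * b)) ≤ - 2 * d := by
    push_cast
    nlinarith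
  rcases hd with hd | hd
  · subst hd
    have e1 : p (h + 2 + 1) = ((2 : ℕ) : ℂ) := hM' _ (by omega) (by omega) (by omega)
    have e2 : p (h + 2 - 1) = ((2 : ℕ) : ℂ) := hM' _ (by omega) (by omega) (by omega)
    rw [e1, e2] at hC2
    simp only [Complex.zero_re, Complex.natCast_re] at hC2
    push_cast at hC2 k2
    linarith
  · subst hd
    have e12 : (p (h + 3 + 1)).re + (p (h + 3 - 1)).re = 3 := by
      rcases (by omega : h % 3 = 1 ∨ h % 3 = 2) with h3 | h3
      · have e1 : p (h + 3 + 1) = 0 := hS _ (by omega) (by omega) (by omega) (fun _ => by omega)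
        have e2 : p (h + 3 - 1) = ((3 : ℕ) : ℂ) := hM' _ (by omega) (by omega) (by omega)
        rw [e1, e2]; simp only [Complex.zero_re, Complex.natCast_re]; norm_num
      · have e1 : p (h + 3 + 1) = ((3 : ℕ) : ℂ) := hM' _ (by omega) (by omega) (by omega)
        have e2 : p (h + 3 - 1) = 0 := hS _ (by omega) (by omega) (by omega) (fun _ => by omega)
        rw [e1, e2]; simp only [Complex.zero_re, Complex.natCast_re]; norm_num
    rw [e12] at hC2
    simp only [Complex.zero_re] at hC2
    push_cast at hC2 k2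
    linarith

/-- PROOF. `p 1 = 1` and `p k = p (k - 1)` for `1 < k < h`. -/
theorem five_one {p : ℕ → ℂ} {h : ℕ} {b : ℂ}
    (hrec : ∀ k, 0 < k → p k = qk p k 1 - b * qk p k h + qk p k (2 * h - 1) - qk p k (2 * h))
    {k : ℕ} (hk : 0 < k) (hkh : k < h) : p k = 1 := by
  induction k with
  | zero => omega
  | succ k ih =>
    rw [hrec _ hk, qk_of_gt (i := h) (by omega), qk_of_gt (i := 2 * h - 1) (by omega),
      qk_of_gt (i := 2 * h) (by omega)]
    rcases Nat.eq_zero_or_pos k with h0 | h0
    · subst h0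
      rw [qk_of_eq rfl]; push_cast; ring
    · rw [qk_of_lt (by omega)]
      have e : k + 1 - 1 = k := by omega
      rw [e, ih h0 (by omega)]; ring

end SalemGap
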