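import Pool.Agent.Lib.MP_9599cf_ntL.Defs

/-! # Division by a power of X, number of monomials -/

set_option autoImplicit false

namespace SalemGap

open SalemLen

open Polynomial

private theorem YStrip_card (Q : ℤ[X]) : (Q * X).support.card = Q.support.card := by
  have h : (Q * X).support = Q.support.map ⟨fun i => i + 1, fun _ _ h => Nat.succ_injective h⟩ := by
    ext i
    simp only [mem_support_iff, Finset.mem_map, Function.Embedding.coeFn_mk]
    cases i with
    | zero => simp
    | succ j =>
      rw [coeff_mul_X]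
      constructor
      · intro hj
        exact ⟨j, hj, rfl⟩
      · rintro ⟨k, hk, hkj⟩
        have : k = j := Nat.succ_injective hkj
        rw [← this]
        exact hk
  rw [h, Finset.card_map]

private theorem YStrip_step {P : ℤ[X]} (hP : P.Monic) {t : ℝ} (ht : 1 < t) (h : Dom P t)
    (h0 : P.coeff 0 = 0) : ∃ P' : ℤ[X], P'.Monic ∧ P'.support.card = P.support.card ∧ Dom P' t ∧
      P'.natDegree < P.natDegree := by
  have e : P.divX * X = P := by
    have h1 := Polynomial.divX_mul_X_add P
    rw [h0, C_0, add_zero] at h1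
    exact h1
  have hm : P.divX.Monic := by
    apply Polynomial.Monic.of_mul_monic_right (q := X) monic_X
    rw [e]
    exact hP
  refine ⟨P.divX, hm, ?_, ?_, ?_⟩
  · rw [← YStrip_card, e]
  · obtain ⟨Q, hQ, hz⟩ := h
    have h2 : cx P = cx P.divX * X := by
      rw [← e]
      simp only [cx, Polynomial.map_mul, Polynomial.map_X]
      rw [e]
    have h3 : Q.eval 0 = 0 := by
      have h4 := congrArg (Polynomial.eval 0) (h2.symm.trans hQ)
      simp only [eval_mul, eval_X, mul_zero, eval_sub, eval_C, zero_sub] at h4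
      have h5 : (-(t : ℂ)) ≠ 0 := by
        rw [neg_ne_zero, Complex.ofReal_ne_zero]
        linarith
      rcases mul_eq_zero.mp h4.symm with h6 | h6
      · exact absurd h6 h5
      · exact h6
    have h7 : Q.divX * X = Q := by
      have h8 := Polynomial.divX_mul_X_add Q
      rw [Polynomial.coeff_zero_eq_eval_zero, h3, C_0, add_zero] at h8
      exact h8
    refine ⟨Q.divX, ?_, ?_⟩
    · have h9 : cx P.divX * X = (X - C (t : ℂ)) * Q.divX * X := by
        rw [mul_assoc, h7, ← hQ, h2]
      exact mul_right_cancel₀ X_ne_zero h9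
    · intro z hz'
      apply hz
      rw [← h7, eval_mul, hz', zero_mul]
  · have h10 : (P.divX * X).natDegree = P.divX.natDegree + 1 :=
      Polynomial.natDegree_mul_X hm.ne_zero
    rw [e] at h10
    omega

theorem exists_coeff_zero_card {P : ℤ[X]} (hP : P.Monic) {t : ℝ} (ht : 1 < t) (h : Dom P t) :
    ∃ P' : ℤ[X], P'.Monic ∧ P'.support.card = P.support.card ∧ Dom P' t ∧ P'.coeff 0 ≠ 0 := by
  have key : ∀ n : ℕ, ∀ P : ℤ[X], P.natDegree = n → P.Monic → Dom P t →
      ∃ P' : ℤ[X], P'.Monic ∧ P'.support.card = P.support.card ∧ Dom P' t ∧ P'.coeff 0 ≠ 0 := by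
    intro n
    induction n using Nat.strong_induction_on with
    | _ n ih =>
      intro P hn hP h
      by_cases h0 : P.coeff 0 = 0
      · obtain ⟨P1, hm, hl, hd, hlt⟩ := YStrip_step hP ht h h0
        obtain ⟨P2, hm2, hl2, hd2, hc2⟩ := ih P1.natDegree (by omega) P1 rfl hm hd
        exact ⟨P2, hm2, hl2.trans hl, hd2, hc2⟩
      · exact ⟨P, hP, rfl, h, h0⟩
  exact key P.natDegree P rfl hP h

end SalemGap
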