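import Pool.Agent.Lib.MP_9599cf_ntG.GInv

/-! # A positive polynomial of degree six -/

set_option autoImplicit false

namespace SalemGap

open SalemLen

open Polynomial

private theorem YSix_sum (Z : Multiset ℂ) (c0 c1 c2 c3 c4 c5 c6 : ℂ) :
    (Z.map fun z => c0 + c1 * (z ^ 1 + z⁻¹ ^ 1) + c2 * (z ^ 2 + z⁻¹ ^ 2) + c3 * (z ^ 3 + z⁻¹ ^ 3) +
      c4 * (z ^ 4 + z⁻¹ ^ 4) + c5 * (z ^ 5 + z⁻¹ ^ 5) + c6 * (z ^ 6 + z⁻¹ ^ 6)).sum =
    c0 * (Z.card : ℂ) + c1 * ((Z.map fun z => z ^ 1).sum + (Z.map fun z => z⁻¹ ^ 1).sum) +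
      c2 * ((Z.map fun z => z ^ 2).sum + (Z.map fun z => z⁻¹ ^ 2).sum) +
      c3 * ((Z.map fun z => z ^ 3).sum + (Z.map fun z => z⁻¹ ^ 3).sum) +
      c4 * ((Z.map fun z => z ^ 4).sum + (Z.map fun z => z⁻¹ ^ 4).sum) +
      c5 * ((Z.map fun z => z ^ 5).sum + (Z.map fun z => z⁻¹ ^ 5).sum) +
      c6 * ((Z.map fun z => z ^ 6).sum + (Z.map fun z => z⁻¹ ^ 6).sum) := by
  induction Z using Multiset.induction_on with
  | empty => simp
  | cons a Z ih =>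
    simp only [Multiset.map_cons, Multiset.sum_cons, Multiset.card_cons, ih]
    push_cast
    ring

private theorem YSix_nonneg (f : ℂ → ℂ) (Z : Multiset ℂ) :
    (∀ z ∈ Z, 0 ≤ (f z).re) → 0 ≤ ((Z.map f).sum).re := by
  induction Z using Multiset.induction_on with
  | empty => intro _; simp
  | cons a Z ih =>
    intro h
    rw [Multiset.map_cons, Multiset.sum_cons, Complex.add_re]
    exact add_nonneg (h a (Multiset.mem_cons_self a Z)) (ih fun z hz => h z (Multiset.mem_cons_of_mem hz))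

private theorem YSix_exp (z w y : ℂ) (h : z * w = 1) :
    (-42 * y + 84) + (-42 * y + 78) * (z ^ 1 + w ^ 1) + (-36 * y + 63) * (z ^ 2 + w ^ 2) +
      (-21 * y + 43) * (z ^ 3 + w ^ 3) + (-7 * y + 22) * (z ^ 4 + w ^ 4) +
      (-y + 7) * (z ^ 5 + w ^ 5) + 1 * (z ^ 6 + w ^ 6) =
    (y - (z + w)) * (1 - (z + w)) * ((z + w) + 2) ^ 4 := by
  obtain ⟨a, ha⟩ : ∃ a, z + w = a := ⟨_, rfl⟩
  have e1 : z ^ 1 + w ^ 1 = a := by rw [← ha]; ring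
  have e2 : z ^ 2 + w ^ 2 = a ^ 2 - 2 := by rw [← ha]; linear_combination (-2) * h
  have e3 : z ^ 3 + w ^ 3 = a ^ 3 - 3 * a := by
    have : z ^ 3 + w ^ 3 = (z + w) * (z ^ 2 + w ^ 2) - (z + w) := by
      linear_combination (-(z + w)) * h
    rw [this, e2, ha]; ring
  have e4 : z ^ 4 + w ^ 4 = a ^ 4 - 4 * a ^ 2 + 2 := by
    have : z ^ 4 + w ^ 4 = (z + w) * (z ^ 3 + w ^ 3) - (z ^ 2 + w ^ 2) := by
      linear_combination (-(z ^ 2 + w ^ 2)) * h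
    rw [this, e3, e2, ha]; ring
  have e5 : z ^ 5 + w ^ 5 = a ^ 5 - 5 * a ^ 3 + 5 * a := by
    have : z ^ 5 + w ^ 5 = (z + w) * (z ^ 4 + w ^ 4) - (z ^ 3 + w ^ 3) := by
      linear_combination (-(z ^ 3 + w ^ 3)) * h
    rw [this, e4, e3, ha]; ring
  have e6 : z ^ 6 + w ^ 6 = a ^ 6 - 6 * a ^ 4 + 9 * a ^ 2 - 2 := by
    have : z ^ 6 + w ^ 6 = (z + w) * (z ^ 5 + w ^ 5) - (z ^ 4 + w ^ 4) := by
      linear_combination (-(z ^ 4 + w ^ 4)) * h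
    rw [this, e5, e4, ha]; ring
  rw [e1, e2, e3, e4, e5, e6, ha]
  ring

/-- PROOF. `Z`, `z = s` or `z = s⁻¹` or `‖z‖ = 1` as in `pos_of_dom`. Let `y = s + s⁻¹`, `a = z + z⁻¹`, which is `y` for
`z = s, s⁻¹`, and `2 Re z ∈ [-2, 1]` for the other roots (`hre`). So `(y - a) * (1 - a) * (a + 2) ^ 4 ≥ 0` for all roots
(it is `0` if `a = y`, and `y > 2`). Sum over the roots and expand in powers of `a`, with
`S j` = the sum of `a ^ j`: `S 0 = n`, `S 1 = 2 p 1`, `S 2 = 2 p 2 + 2 n`, `S 3 = 2 p 3 + 6 p 1`,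
`S 4 = 2 p 4 + 8 p 2 + 6 n`, `S 5 = 2 p 5 + 10 p 3 + 20 p 1`, `S 6 = 2 p 6 + 12 p 4 + 30 p 2 + 20 n`; all `p j = 1`. The sum is
`y * (16 n + 16 S 1 - 8 S 2 - 16 S 3 - 7 S 4 - S 5) + (S 6 + 7 S 5 + 16 S 4 + 8 S 3 - 16 S 2 - 16 S 1)`
`= -(42 n + 214) * (y - 2)`, which is negative. -/
theorem pos_six {P : ℤ[X]} {s : ℝ} (hP : P.Monic) (h0 : P.coeff 0 ≠ 0)
    (hrev : P.reverse = P ∨ P.reverse = -P) (hs : 1 < s) (hd : Dom P s)
    (hre : ∀ z : ℂ, (cx P).eval z = 0 → ‖z‖ = 1 → 2 * z.re ≤ 1)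
    (h1 : ∀ k, 0 < k → k ≤ 6 → ps P k = 1) : False := by
  have hm : (cx P).Monic := hP.map _
  have hinv := roots_inv hP h0 hrev
  obtain ⟨Z, hZ⟩ : ∃ Z, (cx P).roots = Z := ⟨_, rfl⟩
  rw [hZ] at hinv
  have hev : ∀ z ∈ Z, (cx P).eval z = 0 := by
    intro z hz
    rw [← hZ, mem_roots hm.ne_zero] at hz
    exact hz
  have hz0 : ∀ z ∈ Z, z ≠ 0 := by
    intro z hz hz0
    have h2 := hev z hz
    rw [hz0, ← coeff_zero_eq_eval_zero, cx, coeff_map] at h2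
    exact h0 (Int.cast_injective (α := ℂ) (by simpa using h2))
  have hzi : ∀ z ∈ Z, z⁻¹ ∈ Z := by
    intro z hz
    rw [← hinv]
    exact Multiset.mem_map_of_mem _ hz
  have hdom : ∀ z ∈ Z, z = (s : ℂ) ∨ ‖z‖ ≤ 1 := by
    intro z hz
    obtain ⟨Q, hQ, hQ1⟩ := hd
    have h2 := hev z hz
    rw [hQ, eval_mul, eval_sub, eval_X, eval_C] at h2
    rcases mul_eq_zero.1 h2 with h3 | h3
    · exact Or.inl (sub_eq_zero.1 h3)
    · exact Or.inr (hQ1 z h3)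
  have hp : ∀ k, 0 < k → k ≤ 6 → (Z.map fun z => z ^ k).sum = 1 := by
    intro k hk1 hk2
    have := h1 k hk1 hk2
    rw [ps, hZ] at this
    exact this
  have hpi : ∀ k, 0 < k → k ≤ 6 → (Z.map fun z => z⁻¹ ^ k).sum = 1 := by
    intro k hk1 hk2
    rw [← hp k hk1 hk2]
    conv_rhs => rw [← hinv]
    rw [Multiset.map_map]
    rfl
  have hs0 : (0 : ℝ) < s := by linarith
  have hy : 2 < s + s⁻¹ := by
    have h2 : 0 < (s - 1) ^ 2 / s := div_pos (pow_pos (by linarith) 2) hs0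
    have h3 : (s - 1) ^ 2 / s = s + s⁻¹ - 2 := by
      field_simp
      ring
    linarith
  obtain ⟨y, hy'⟩ : ∃ y : ℝ, s + s⁻¹ = y := ⟨_, rfl⟩
  rw [hy'] at hy
  have hsc : (s : ℂ) ≠ 0 := by exact_mod_cast hs0.ne'
  have hyc : (s : ℂ) + (s : ℂ)⁻¹ = (y : ℂ) := by
    rw [← hy']; push_cast; rfl
  have hnn : 0 ≤ ((Z.map fun z => (-42 * (y : ℂ) + 84) + (-42 * (y : ℂ) + 78) * (z ^ 1 + z⁻¹ ^ 1) +
      (-36 * (y : ℂ) + 63) * (z ^ 2 + z⁻¹ ^ 2) +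
      (-21 * (y : ℂ) + 43) * (z ^ 3 + z⁻¹ ^ 3) + (-7 * (y : ℂ) + 22) * (z ^ 4 + z⁻¹ ^ 4) +
      (-(y : ℂ) + 7) * (z ^ 5 + z⁻¹ ^ 5) + 1 * (z ^ 6 + z⁻¹ ^ 6)).sum).re := by
    refine YSix_nonneg _ Z fun z hz => ?_
    have hzz := hz0 z hz
    show 0 ≤ ((-42 * (y : ℂ) + 84) + (-42 * (y : ℂ) + 78) * (z ^ 1 + z⁻¹ ^ 1) +
      (-36 * (y : ℂ) + 63) * (z ^ 2 + z⁻¹ ^ 2) +
      (-21 * (y : ℂ) + 43) * (z ^ 3 + z⁻¹ ^ 3) + (-7 * (y : ℂ) + 22) * (z ^ 4 + z⁻¹ ^ 4) +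
      (-(y : ℂ) + 7) * (z ^ 5 + z⁻¹ ^ 5) + 1 * (z ^ 6 + z⁻¹ ^ 6)).re
    rw [YSix_exp z z⁻¹ y (mul_inv_cancel₀ hzz)]
    rcases hdom z hz with h2 | h2
    · rw [h2, hyc, sub_self, zero_mul, zero_mul, Complex.zero_re]
    · rcases hdom _ (hzi z hz) with h3 | h3
      · have h4 : z + z⁻¹ = (y : ℂ) := by
          have h5 : z = (s : ℂ)⁻¹ := by rw [← h3, inv_inv]
          rw [h5, inv_inv, add_comm]
          exact hyc
        rw [h4, sub_self, zero_mul, zero_mul, Complex.zero_re]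
      · have h4 : ‖z‖ = 1 := by
          refine le_antisymm h2 ?_
          rw [norm_inv] at h3
          have h5 : 0 < ‖z‖ := norm_pos_iff.2 hzz
          by_contra hcon
          have h6 := one_lt_inv_iff₀.2 ⟨h5, not_le.1 hcon⟩
          linarith
        have h5 : z + z⁻¹ = ((2 * z.re : ℝ) : ℂ) := by
          rw [Complex.inv_eq_conj h4, Complex.add_conj]
        have h6 := hre z (hev z hz) h4
        rw [h5]
        have h7 : ((y : ℂ) - ((2 * z.re : ℝ) : ℂ)) * (1 - ((2 * z.re : ℝ) : ℂ)) *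
            (((2 * z.re : ℝ) : ℂ) + 2) ^ 4 =
            (((y - 2 * z.re) * (1 - 2 * z.re) * (2 * z.re + 2) ^ 4 : ℝ) : ℂ) := by
          push_cast; ring
        rw [h7, Complex.ofReal_re]
        exact mul_nonneg (mul_nonneg (by linarith) (by linarith)) (by positivity)
  rw [YSix_sum, hp 1 (by norm_num) (by norm_num), hp 2 (by norm_num) (by norm_num),
    hp 3 (by norm_num) (by norm_num), hp 4 (by norm_num) (by norm_num),
    hp 5 (by norm_num) (by norm_num), hp 6 (by norm_num) (by norm_num),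
    hpi 1 (by norm_num) (by norm_num), hpi 2 (by norm_num) (by norm_num),
    hpi 3 (by norm_num) (by norm_num), hpi 4 (by norm_num) (by norm_num),
    hpi 5 (by norm_num) (by norm_num), hpi 6 (by norm_num) (by norm_num)] at hnn
  have hfin : (-42 * (y : ℂ) + 84) * (Z.card : ℂ) + (-42 * (y : ℂ) + 78) * (1 + 1) +
      (-36 * (y : ℂ) + 63) * (1 + 1) + (-21 * (y : ℂ) + 43) * (1 + 1) +
      (-7 * (y : ℂ) + 22) * (1 + 1) + (-(y : ℂ) + 7) * (1 + 1) + 1 * (1 + 1) =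
      ((-((42 * (Z.card : ℝ) + 214) * (y - 2)) : ℝ) : ℂ) := by
    push_cast; ring
  rw [hfin, Complex.ofReal_re] at hnn
  have hc : (0 : ℝ) ≤ (Z.card : ℝ) := Nat.cast_nonneg _
  have : 0 < (42 * (Z.card : ℝ) + 214) * (y - 2) := mul_pos (by linarith) (by linarith)
  linarith

end SalemGap
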