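import Pool.Agent.Lib.MP_9599cf_ntF.VMain
import Pool.Agent.Lib.MP_9599cf_ntF.WShape
import Pool.Agent.Lib.MP_9599cf_ntF.WRec
import Pool.Agent.Lib.MP_9599cf_ntF.WGcd
import Pool.Agent.Lib.MP_9599cf_ntF.WSgn
import Pool.Agent.Lib.MP_9599cf_ntG.GTw
import Pool.Agent.Lib.MP_9599cf_ntG.GBig
import Pool.Agent.Lib.MP_9599cf_ntG.GFour
import Pool.Agent.Lib.MP_9599cf_ntG.GSmall
import Pool.Agent.Lib.MP_9599cf_ntG.GReal
import Pool.Agent.Lib.MP_9599cf_ntG.GSign
import Pool.Agent.Lib.MP_9599cf_ntG.GRe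
import Pool.Agent.Lib.MP_9599cf_ntG.GLen
import Pool.Agent.Lib.MP_9599cf_ntG.GStrip
import Pool.Agent.Lib.MP_9599cf_ntG.GSm
import Pool.Agent.Lib.MP_9599cf_ntL.TTDef

/-! # The least Salem number of the polynomials with at most five monomials -/

set_option autoImplicit false

namespace SalemGap

open SalemLen

open Polynomial

theorem len_le_five {s : ℝ} (hs : IsSalem s) (hs2 : s < 6 / 5) {P : ℤ[X]} (hP : P.Monic)
    (h0 : P.coeff 0 ≠ 0) (hc : P.support.card ≤ 5) (hd : Dom P s) : len P ≤ 5 := by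
  have hs1 : 1 < s := hs.2.1
  have hc4 := (card_cases hs hP h0 hd).1
  have hrev := hs.reverse_eq hP h0 hd
  obtain ⟨n, d, h, a, b, e, hd0, hdn, hh, ha, he, hb, rfl⟩ := shape_wp hP h0 hc hc4 hrev
  have haneg := a_neg hs hd0 hdn hh ha he hb hP h0 hd
  have hdeg := (wp_monic (a := a) (b := b) (e := e) hd0 hdn hh).2
  have hpos := pos_of_dom hP h0 hrev hs1 hd
  rw [hdeg] at hpos
  have hroot : s ^ n + a * s ^ (n - d) + b * s ^ h + e * a * s ^ d + e = 0 := by
    rw [← wp_aeval]
    have h1 : (cx (wp n d h a b e)).eval (s : ℂ) = 0 := by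
      obtain ⟨Q, hQ, -⟩ := hd
      rw [hQ, eval_mul, eval_sub, eval_X, eval_C, sub_self, zero_mul]
    rw [eval_cx_real] at h1
    exact_mod_cast h1
  have hrec := fun (k : ℕ) (hk : 0 < k) => ps_rec (h := h) (a := a) (b := b) hd0 hdn he hh hb hk
  by_cases hb0 : b = 0
  · exfalso
    subst hb0
    have hcop : Nat.Coprime d n := dom_gcd hs1 hd (by omega) (Nat.gcd_pos_of_pos_left _ hd0)
      (Nat.gcd_dvd_right _ _) (Nat.gcd_dvd_left _ _) (Or.inl rfl)
    rcases he with he | he
    · subst he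
      rcases (show a = -1 ∨ a ≤ -2 by omega) with ha1 | ha2
      · subst ha1
        have h1 := real_fac (h := h) hs1 hd0 hdn (le_refl (0 : ℤ))
        push_cast at h1 hroot
        linarith
      · by_cases hd3 : d ≤ 3
        · refine real_small (h := h) hs1 hs2 hd3 hdn ha2 (le_refl (0 : ℤ)) ?_
          rw [← hroot]
          push_cast
          ring
        · refine four_big (A := -a) (fun k hk => ?_) hpos (by omega) hdn hcop (by omega)
          rw [hrec k hk]
          push_cast
          ring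
    · subst he
      rcases (show a = -1 ∨ a ≤ -2 by omega) with ha1 | ha2
      · subst ha1
        have h1 := real_fac_neg hs1 hd0 hdn
        push_cast at h1 hroot
        linarith
      · rcases (show d = 1 ∨ 2 ≤ d by omega) with hd1 | hd2
        · subst hd1
          refine real_neg hs1 hs2 (by omega : 3 ≤ n) ha2 ?_
          rw [← hroot]
          push_cast
          ring
        · refine four_neg (A := -a) (fun k hk => ?_) hpos hd2 hdn hcop (by omega)
          rw [hrec k hk]
          push_cast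
          ring
  · obtain ⟨he1, hn⟩ := hb.resolve_left hb0
    subst he1
    subst hn
    have hdh : d < h := by omega
    have hcop : Nat.Coprime d h := dom_gcd hs1 hd (by omega) (Nat.gcd_pos_of_pos_left _ hd0)
      (Dvd.dvd.mul_left (Nat.gcd_dvd_right _ _) 2) (Nat.gcd_dvd_left _ _)
      (Or.inr (Nat.gcd_dvd_right _ _))
    have hrec5 : ∀ A : ℤ, A = -a → ∀ k, 0 < k → ps (wp (2 * h) d h a b 1) k =
        (A : ℂ) * qk (ps (wp (2 * h) d h a b 1)) k d - (b : ℂ) * qk (ps (wp (2 * h) d h a b 1)) k h +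
        (A : ℂ) * qk (ps (wp (2 * h) d h a b 1)) k (2 * h - d) -
        qk (ps (wp (2 * h) d h a b 1)) k (2 * h) := by
      intro A hA k hk
      rw [hrec k hk, hA]
      push_cast
      ring
    have hroot5 : s ^ (2 * h) + a * s ^ (2 * h - d) + b * s ^ h + a * s ^ d + 1 = 0 := by
      rw [← hroot]
      push_cast
      ring
    rcases (show a = -1 ∨ a ≤ -2 by omega) with ha1 | ha2
    · subst ha1
      rcases (show 0 ≤ b ∨ b = -1 ∨ b ≤ -2 by omega) with hb1 | hb1 | hb1
      · exfalso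
        have h1 := real_fac (h := h) hs1 hd0 hdn hb1
        push_cast at h1 hroot
        linarith
      · subst hb1
        exact len_wp hd0 hdh
      · exfalso
        have hh8 : 8 ≤ h := real_eight hs1 hs2 hd0 hdh (le_refl (-1 : ℤ)) (by omega) hroot5
        rcases (show d = 1 ∨ (d = 2 ∨ d = 3) ∨ 4 ≤ d by omega) with hd1 | hd2 | hd4
        · subst hd1
          refine pos_six hP h0 hrev hs1 hd (fun z hz hz1 => re_le (by omega) hb1 hz1 hz) ?_
          intro k hk hk6
          refine five_one (b := (b : ℂ)) (h := h) (fun k hk => ?_) hk (by omega)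
          rw [hrec5 1 (by norm_num) k hk]
          push_cast
          ring
        · refine five_small (b := b) (fun k hk => ?_) hpos hd2 hcop hh8 hb1
          rw [hrec5 1 (by norm_num) k hk]
          push_cast
          ring
        · exact five_big (A := 1) (hrec5 1 (by norm_num)) hpos hd4 hdh hcop hh8 (by omega)
    · exfalso
      rcases (show d = 1 ∨ 2 ≤ d by omega) with hd1 | hd2
      · subst hd1
        have h1 := dom_nonpos hP hs1 hd (le_refl (1 : ℝ)) hs1.le
        rw [wp_aeval] at h1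
        have h2 : (2 + 2 * a + b : ℝ) ≤ 0 := by
          simp only [one_pow] at h1
          push_cast at h1
          linarith
        have h3 : 2 + 2 * a + b ≤ 0 := by exact_mod_cast h2
        refine real_one hs1 hs2 (by omega : 2 ≤ h) ha2 (by omega : b ≤ -2 * a - 2) ?_
        rw [← hroot5, pow_one]
      · rcases (show 1 ≤ b ∨ b ≤ -1 by omega) with hb1 | hb1
        · exact five_pos (hrec5 (-a) rfl) hpos hd2 hdh hcop (by omega) hb1
        · by_cases hd3 : d ≤ 3
          · exact real_small hs1 hs2 hd3 hdn ha2 (by omega) hroot5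
          · have hh8 : 8 ≤ h := real_eight hs1 hs2 hd0 hdh (by omega) (by omega) hroot5
            exact five_big (hrec5 (-a) rfl) hpos (by omega) hdh hcop hh8 (by nlinarith)

/-- Lehmer's number is the only element of `TT ⊤ 5` below `6 / 5`. -/
theorem gap {t s : ℝ} (h1 : 1 < t) (h3 : (cx lehmer).eval (t : ℂ) = 0) (hss : s ∈ TT ⊤ 5)
    (hs2 : s < 6 / 5) : s = t := by
  obtain ⟨hss, P0, hP0, -, hcard0, hd0⟩ := hss
  obtain ⟨P, hP, hcard1, hdP, hc0⟩ := exists_coeff_zero_card hP0 hss.2.1 hd0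
  have hl0 : len P ≤ 5 := len_le_five hss hs2 hP hc0 (by omega) hdP
  obtain ⟨c1, c2⟩ := card_cases hss hP hc0 hdP
  have c3 := card_le_len P
  have hcard : P.support.card = 5 := by
    by_contra hne
    have c4 := c2 (by omega)
    omega
  obtain ⟨N, m, a, b, hm, hmN, ha, hb, hPeq⟩ :=
    shape_coeffs hP hc0 hcard hl0 (hss.reverse_eq hP hc0 hdP)
  have hs0 : (cx P).eval (s : ℂ) = 0 := by
    obtain ⟨Q, hQ, -⟩ := hdP
    rw [hQ, eval_mul, eval_sub, eval_X, eval_C, sub_self, zero_mul]
  have hs1 : s ^ (2 * N) + a * s ^ (N + m) + b * s ^ N + a * s ^ (N - m) + 1 = 0 := by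
    rw [eval_cx_real, hPeq] at hs0
    have h4 : Polynomial.aeval s (X ^ (2 * N) + C a * X ^ (N + m) + C b * X ^ N +
        C a * X ^ (N - m) + 1 : ℤ[X]) = 0 := by exact_mod_cast hs0
    simpa using h4
  obtain ⟨ha', hb'⟩ := shape_signs hm hmN ha hb hss.2.1 hs1
  have hPv : P = vp N m := by
    rw [hPeq, ha', hb', vp, C_neg, C_1]
    ring
  rw [hPv] at hdP
  have hco := coprime_of_dom hm hmN hss.2.1 hdP
  obtain ⟨U, hU⟩ := exists_prod (qp_monic hm hmN).1
    (fun u hu => real_of_root hmN hss.2.1 hdP hu)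
  have hN : N ≤ 12 := by
    by_contra hcon
    exact not_large (by omega) hm hmN hco hU
  have hlag : ∀ u : ℝ, (qp N m).eval u * (derivative (derivative (qp N m))).eval u ≤
      ((derivative (qp N m)).eval u) ^ 2 := by
    intro u
    rw [hU]
    exact laguerre U u
  have hv : ∀ {F G : ℤ[X]}, F = lehmer * G → (cx F).eval (t : ℂ) = 0 := by
    intro F G hF
    rw [hF, cx, Polynomial.map_mul, eval_mul]
    change (cx lehmer).eval (t : ℂ) * _ = 0
    rw [h3, zero_mul]
  rcases SalemGap.small_cases hN hm hmN hco hlag with ⟨rfl, rfl⟩ | ⟨rfl, rfl⟩ | hneg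
  · exact (hdP.eq_of_root h1 (hv vp_seven.2)).symm
  · exact (hdP.eq_of_root h1 (hv vp_seven.1)).symm
  · have h5 := lt_of_neg hm hmN hss.2.1 hdP hneg
    linarith

/-- Lehmer's number is the only element of `TT ⊤ 5` below `6 / 5`. -/
theorem lehmer_isolated : ∃ t ∈ TT ⊤ 5, Polynomial.aeval t lehmer = 0 ∧ t < 6 / 5 ∧
    ∀ s ∈ TT ⊤ 5, s < 6 / 5 → s = t := by
  obtain ⟨t, hs, hd, h1, h2, h3⟩ := exists_lehmer
  have hroot : Polynomial.aeval t lehmer = 0 := by
    rw [eval_cx_real] at h3
    exact_mod_cast h3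
  obtain ⟨hd7, hd6⟩ := dom_of_lehmer hd
  refine ⟨t, ⟨hs, vp 7 4, vp_seven_len.1, le_top,
    (card_le_len _).trans vp_seven_len.2, hd7⟩, hroot, by linarith, ?_⟩
  intro s hss hs2
  exact gap h1 h3 hss hs2

end SalemGap
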