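import Pool.Agent.Lib.MP_9599cf_ntG.GInv

/-! # Twisted positivity -/

set_option autoImplicit false

namespace SalemGap

open SalemLen

open Polynomial

private theorem YPos_re (Z : Multiset ℂ) (f : ℂ → ℂ) :
    ((Z.map f).sum).re = (Z.map fun z => (f z).re).sum := by
  induction Z using Multiset.induction_on with
  | empty => simp
  | cons a Z ih => simp [ih]

private theorem YPos_inv (Z : Multiset ℂ) (hinv : (Z.map fun z => z⁻¹) = Z) (j : ℕ) :
    (Z.map fun z => z⁻¹ ^ j).sum = (Z.map fun z => z ^ j).sum := by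
  conv_rhs => rw [← hinv]
  rw [Multiset.map_map]
  rfl

private theorem YPos_id (C z : ℂ) (a k : ℕ) (hak : a < k) (hz : z ≠ 0) :
    (C - (z ^ a + z⁻¹ ^ a) / 2) * (1 - (z ^ k + z⁻¹ ^ k) / 2) =
      C + (-C / 2) * z ^ k + (-C / 2) * z⁻¹ ^ k + (-1 / 2) * z ^ a + (-1 / 2) * z⁻¹ ^ a +
      (1 / 4) * z ^ (k + a) + (1 / 4) * z⁻¹ ^ (k + a) + (1 / 4) * z ^ (k - a) +
      (1 / 4) * z⁻¹ ^ (k - a) := by
  obtain ⟨m, rfl⟩ : ∃ m, k = a + m := ⟨k - a, by omega⟩
  have h1 : z ^ a * z⁻¹ ^ a = 1 := by rw [← mul_pow, mul_inv_cancel₀ hz, one_pow]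
  rw [Nat.add_sub_cancel_left]
  simp only [pow_add]
  linear_combination (1 / 4) * (z ^ m + z⁻¹ ^ m) * h1

private theorem YPos_sum (Z : Multiset ℂ) (C : ℂ) (a k : ℕ) (hak : a < k) (hz : ∀ z ∈ Z, z ≠ 0)
    (hinv : (Z.map fun z => z⁻¹) = Z) :
    (Z.map fun z => (C - (z ^ a + z⁻¹ ^ a) / 2) * (1 - (z ^ k + z⁻¹ ^ k) / 2)).sum =
      C * ((Multiset.card Z : ℂ) - (Z.map fun z => z ^ k).sum) - (Z.map fun z => z ^ a).sum +
      ((Z.map fun z => z ^ (k + a)).sum + (Z.map fun z => z ^ (k - a)).sum) / 2 := by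
  rw [Multiset.map_congr rfl fun z hzZ => YPos_id C z a k hak (hz z hzZ)]
  simp only [Multiset.sum_map_add, Multiset.sum_map_mul_left, Multiset.map_const',
    Multiset.sum_replicate, nsmul_eq_mul, YPos_inv Z hinv]
  ring

private theorem YPos_circle {z : ℂ} (hz : ‖z‖ = 1) (j : ℕ) :
    (z ^ j + z⁻¹ ^ j) / 2 = (((z ^ j).re : ℝ) : ℂ) := by
  have h1 : z⁻¹ = (starRingEnd ℂ) z := by
    rw [Complex.inv_def, Complex.normSq_eq_norm_sq, hz]
    simp
  rw [h1, ← map_pow, Complex.add_conj]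
  push_cast
  ring

private theorem YPos_abs {z : ℂ} (hz : ‖z‖ = 1) (j : ℕ) : |(z ^ j).re| ≤ 1 := by
  have h := Complex.abs_re_le_norm (z ^ j)
  rwa [norm_pow, hz, one_pow] at h

/-- PROOF. Let `Z = (cx P).roots`, of cardinality `n = P.natDegree` (`cx P` is monic and splits). By `Dom`, each `z ∈ Z`
is `s` or has `‖z‖ ≤ 1`; the same for `z⁻¹ ∈ Z` (`roots_inv`). So `z = s` or `z = s⁻¹` or `‖z‖ = 1`. `low`: the real part
of `z ^ k` is at least `-1`. `tw` (write `a` for the index `s` of the statement): let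
`C = (s ^ a + s⁻¹ ^ a) / 2 ≥ 1` and `T z = (C - (z ^ a + z⁻¹ ^ a) / 2) * (1 - (z ^ k + z⁻¹ ^ k) / 2)`. If `z = s` or `z = s⁻¹` then
`T z = 0`; if `‖z‖ = 1` then `(z ^ a + z⁻¹ ^ a) / 2 = Re z ^ a ≤ 1 ≤ C`, so `T z` is real and nonnegative. So the real part of
the sum of `T z` over `Z` is nonnegative. Expand, and use that the sum of `z⁻¹ ^ j` is `ps P j` (`roots_inv`):
the sum is `C * (n - p k) - p a + (p (k + a) + p (k - a)) / 2`. -/
theorem pos_of_dom {P : ℤ[X]} {s : ℝ} (hP : P.Monic) (h0 : P.coeff 0 ≠ 0)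
    (hrev : P.reverse = P ∨ P.reverse = -P) (hs : 1 < s) (hd : Dom P s) : Pos P.natDegree (ps P) := by
  have hm : (cx P).Monic := hP.map _
  have hn : (cx P).natDegree = P.natDegree :=
    natDegree_map_eq_of_injective (RingHom.injective_int _) P
  have hcard : Multiset.card (cx P).roots = P.natDegree := by
    rw [← hn]
    exact (IsAlgClosed.splits (cx P)).natDegree_eq_card_roots.symm
  have hinv := roots_inv hP h0 hrev
  have hz0 : ∀ z ∈ (cx P).roots, z ≠ 0 := by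
    intro z hz hz0
    rw [mem_roots hm.ne_zero, hz0, IsRoot.def, ← coeff_zero_eq_eval_zero, cx, coeff_map] at hz
    exact h0 (Int.cast_injective (α := ℂ) (by simpa using hz))
  obtain ⟨Q, hQ, hQ1⟩ := hd
  have hle : ∀ z ∈ (cx P).roots, z = (s : ℂ) ∨ ‖z‖ ≤ 1 := by
    intro z hz
    rw [mem_roots hm.ne_zero, IsRoot.def, hQ, eval_mul, mul_eq_zero] at hz
    rcases hz with hz | hz
    · left
      rw [eval_sub, eval_X, eval_C] at hz
      exact sub_eq_zero.1 hz
    · right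
      exact hQ1 z hz
  have hmi : ∀ z ∈ (cx P).roots, z⁻¹ ∈ (cx P).roots := by
    intro z hz
    rw [← hinv]
    exact Multiset.mem_map_of_mem (fun z => z⁻¹) hz
  have htri : ∀ z ∈ (cx P).roots, z = (s : ℂ) ∨ z = (s : ℂ)⁻¹ ∨ ‖z‖ = 1 := by
    intro z hz
    rcases hle z hz with h1 | h1
    · exact Or.inl h1
    · rcases hle _ (hmi z hz) with h2 | h2
      · right; left
        rw [← h2, inv_inv]
      · right; right
        rw [norm_inv] at h2
        have hpos : 0 < ‖z‖ := norm_pos_iff.2 (hz0 z hz)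
        have h3 : 1 ≤ ‖z‖ := (inv_le_one₀ hpos).1 h2
        exact le_antisymm h1 h3
  have hs0 : 0 < s := by linarith
  refine ⟨?_, ?_⟩
  · intro k _
    have h1 : ∀ x ∈ (cx P).roots.map (fun z => (z ^ k).re), (-1 : ℝ) ≤ x := by
      intro x hx
      obtain ⟨z, hz, rfl⟩ := Multiset.mem_map.1 hx
      rcases htri z hz with h | h | h
      · rw [h, ← Complex.ofReal_pow, Complex.ofReal_re]
        have : 0 < s ^ k := pow_pos hs0 k
        linarith
      · rw [h, ← Complex.ofReal_inv, ← Complex.ofReal_pow, Complex.ofReal_re]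
        have : 0 < s⁻¹ ^ k := pow_pos (inv_pos.2 hs0) k
        linarith
      · exact (abs_le.1 (YPos_abs h k)).1
    have h2 := Multiset.card_nsmul_le_sum h1
    rw [Multiset.card_map, hcard, nsmul_eq_mul] at h2
    rw [ps, YPos_re]
    linarith
  · intro a k ha hak
    have hx : 0 < s ^ a := pow_pos hs0 a
    have hxy : s ^ a * s⁻¹ ^ a = 1 := by rw [← mul_pow, mul_inv_cancel₀ hs0.ne', one_pow]
    have hC : 1 ≤ (s ^ a + s⁻¹ ^ a) / 2 := by
      nlinarith [sq_nonneg (s ^ a - s⁻¹ ^ a), pow_pos (inv_pos.2 hs0) a]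
    refine ⟨(s ^ a + s⁻¹ ^ a) / 2, hC, ?_⟩
    have h1 := YPos_sum (cx P).roots (((s ^ a + s⁻¹ ^ a) / 2 : ℝ) : ℂ) a k hak hz0 hinv
    have h2 : 0 ≤ (((cx P).roots.map fun z => ((((s ^ a + s⁻¹ ^ a) / 2 : ℝ) : ℂ) -
        (z ^ a + z⁻¹ ^ a) / 2) * (1 - (z ^ k + z⁻¹ ^ k) / 2)).sum).re := by
      rw [YPos_re]
      apply Multiset.sum_nonneg
      intro x hx
      obtain ⟨z, hz, rfl⟩ := Multiset.mem_map.1 hx
      rcases htri z hz with h | h | h
      · have : (((s ^ a + s⁻¹ ^ a) / 2 : ℝ) : ℂ) - (z ^ a + z⁻¹ ^ a) / 2 = 0 := by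
          rw [h]; push_cast; ring
        rw [this, zero_mul, Complex.zero_re]
      · have : (((s ^ a + s⁻¹ ^ a) / 2 : ℝ) : ℂ) - (z ^ a + z⁻¹ ^ a) / 2 = 0 := by
          rw [h, inv_inv]; push_cast; ring
        rw [this, zero_mul, Complex.zero_re]
      · rw [YPos_circle h a, YPos_circle h k, ← Complex.ofReal_sub, ← Complex.ofReal_one,
          ← Complex.ofReal_sub, ← Complex.ofReal_mul, Complex.ofReal_re]
        have h3 := (abs_le.1 (YPos_abs h a)).2
        have h4 := (abs_le.1 (YPos_abs h k)).2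
        exact mul_nonneg (by linarith) (by linarith)
    rw [h1, hcard] at h2
    have e : ((((s ^ a + s⁻¹ ^ a) / 2 : ℝ) : ℂ) * (((P.natDegree : ℕ) : ℂ) -
        ((cx P).roots.map fun z => z ^ k).sum) - ((cx P).roots.map fun z => z ^ a).sum +
        (((cx P).roots.map fun z => z ^ (k + a)).sum +
        ((cx P).roots.map fun z => z ^ (k - a)).sum) / 2).re =
        (s ^ a + s⁻¹ ^ a) / 2 * ((P.natDegree : ℝ) - (ps P k).re) - (ps P a).re +
        ((ps P (k + a)).re + (ps P (k - a)).re) / 2 := by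
      simp only [ps]
      rw [Complex.add_re, Complex.sub_re, Complex.re_ofReal_mul, Complex.sub_re,
        Complex.natCast_re, Complex.div_ofNat_re, Complex.add_re]
    rw [e] at h2
    exact h2

end SalemGap
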