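import Pool.Agent.Lib.MP_9599cf_ntF.WDef

/-! # The roots for `d = 1` -/

set_option autoImplicit false

namespace SalemGap

open SalemLen

open Polynomial

/-- PROOF. Divide by `z ^ h` (`‖z‖ = 1`, `z⁻¹ = conj z`): `2 Re (z ^ h) - 2 Re (z ^ (h - 1)) = - b ≥ 2`. So
`1 ≤ Re (z ^ h - z ^ (h - 1)) ≤ ‖z ^ h - z ^ (h - 1)‖ = ‖z - 1‖`, and `1 ≤ ‖z - 1‖ ^ 2 = 2 - 2 Re z`. -/
theorem re_le {h : ℕ} {b : ℤ} (hh : 2 ≤ h) (hb : b ≤ -2) {z : ℂ} (hz : ‖z‖ = 1)
    (h0 : (cx (wp (2 * h) 1 h (-1) b 1)).eval z = 0) : 2 * z.re ≤ 1 := by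
  obtain ⟨m, rfl⟩ : ∃ m, h = m + 1 := ⟨h - 1, by omega⟩
  rw [wp_eval] at h0
  have hzw : z * (starRingEnd ℂ) z = 1 := by
    rw [Complex.mul_conj, Complex.normSq_eq_norm_sq, hz]
    norm_num
  have e1 : 2 * (m + 1) - 1 = (m + 1) + m := by omega
  rw [e1] at h0
  push_cast at h0
  have h1 : z ^ (m + 1) - z ^ m + (b : ℂ) - (starRingEnd ℂ) (z ^ m) + (starRingEnd ℂ) (z ^ (m + 1)) =
      0 := by
    have h2 : (z ^ (2 * (m + 1)) + -1 * z ^ (m + 1 + m) + (b : ℂ) * z ^ (m + 1) + 1 * -1 * z ^ 1 + 1) *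
        ((starRingEnd ℂ) z) ^ (m + 1) = 0 := by
      rw [h0, zero_mul]
    have h3 : z ^ (m + 1) * ((starRingEnd ℂ) z) ^ (m + 1) = 1 := by
      rw [← mul_pow, hzw, one_pow]
    rw [map_pow, map_pow]
    calc z ^ (m + 1) - z ^ m + (b : ℂ) - (starRingEnd ℂ) z ^ m + (starRingEnd ℂ) z ^ (m + 1)
        = (z ^ (2 * (m + 1)) + -1 * z ^ (m + 1 + m) + (b : ℂ) * z ^ (m + 1) + 1 * -1 * z ^ 1 + 1) *
          ((starRingEnd ℂ) z) ^ (m + 1) := by
          have e2 : z ^ (2 * (m + 1)) * ((starRingEnd ℂ) z) ^ (m + 1) = z ^ (m + 1) := by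
            calc z ^ (2 * (m + 1)) * ((starRingEnd ℂ) z) ^ (m + 1)
                = z ^ (m + 1) * (z ^ (m + 1) * ((starRingEnd ℂ) z) ^ (m + 1)) := by ring
              _ = z ^ (m + 1) := by rw [h3, mul_one]
          have e3 : z ^ (m + 1 + m) * ((starRingEnd ℂ) z) ^ (m + 1) = z ^ m := by
            calc z ^ (m + 1 + m) * ((starRingEnd ℂ) z) ^ (m + 1)
                = z ^ m * (z ^ (m + 1) * ((starRingEnd ℂ) z) ^ (m + 1)) := by ring
              _ = z ^ m := by rw [h3, mul_one]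
          have e4 : z ^ 1 * ((starRingEnd ℂ) z) ^ (m + 1) = (starRingEnd ℂ) z ^ m := by
            calc z ^ 1 * ((starRingEnd ℂ) z) ^ (m + 1)
                = (z * (starRingEnd ℂ) z) * (starRingEnd ℂ) z ^ m := by ring
              _ = (starRingEnd ℂ) z ^ m := by rw [hzw, one_mul]
          linear_combination -e2 + e3 - (b : ℂ) * h3 + e4
      _ = 0 := h2
  have h4 := congrArg Complex.re h1
  simp only [Complex.add_re, Complex.sub_re, Complex.conj_re, Complex.intCast_re, Complex.zero_re]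
    at h4
  have hb' : (b : ℝ) ≤ -2 := by exact_mod_cast hb
  have h5 : 1 ≤ (z ^ (m + 1) - z ^ m).re := by
    rw [Complex.sub_re]
    linarith
  have h6 : (z ^ (m + 1) - z ^ m).re ≤ ‖z - 1‖ := by
    refine (Complex.re_le_norm _).trans (le_of_eq ?_)
    have e5 : z ^ (m + 1) - z ^ m = z ^ m * (z - 1) := by ring
    rw [e5, norm_mul, norm_pow, hz, one_pow, one_mul]
  have h7 : 1 ≤ ‖z - 1‖ := h5.trans h6
  have h8 : ‖z - 1‖ ^ 2 = 2 - 2 * z.re := by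
    have h9 : ‖z‖ ^ 2 = 1 := by rw [hz, one_pow]
    rw [← Complex.normSq_eq_norm_sq, Complex.normSq_apply] at h9 ⊢
    simp only [Complex.sub_re, Complex.sub_im, Complex.one_re, Complex.one_im]
    nlinarith
  nlinarith

end SalemGap
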