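import Mathlib

/-! # Elementary inequalities A -/

set_option autoImplicit false

namespace SalemGap

/-- PROOF. `s ^ d ≤ s ^ 3 < 2 ≤ A`, `A = -a`: `s ^ n - A s ^ (n - d) = - s ^ (n - d) (A - s ^ d) < 0`, `b s ^ h ≤ 0`,
`- A s ^ d + 1 < 0`. -/
theorem real_small {s : ℝ} {n d h : ℕ} {a b : ℤ} (hs : 1 < s) (hs2 : s < 6 / 5) (hd : d ≤ 3)
    (hdn : 2 * d < n) (ha : a ≤ -2) (hb : b ≤ 0) :
    s ^ n + a * s ^ (n - d) + b * s ^ h + a * s ^ d + 1 ≠ 0 := by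
  have ha' : (a : ℝ) ≤ -2 := by exact_mod_cast ha
  have hb' : (b : ℝ) ≤ 0 := by exact_mod_cast hb
  have h3 : s ^ d < 2 := by
    calc s ^ d ≤ s ^ 3 := pow_le_pow_right₀ hs.le hd
      _ < (6 / 5) ^ 3 := pow_lt_pow_left₀ hs2 (by linarith) (by norm_num)
      _ < 2 := by norm_num
  have h1 : 1 ≤ s ^ d := one_le_pow₀ hs.le
  have h4 : s ^ n = s ^ (n - d) * s ^ d := by
    rw [← pow_add]
    congr 1
    omega
  have h5 : 0 < s ^ (n - d) := by positivity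
  have h6 : 0 < s ^ h := by positivity
  have h7 : s ^ (n - d) * (s ^ d + a) < 0 := mul_neg_of_pos_of_neg h5 (by linarith)
  have h8 : (b : ℝ) * s ^ h ≤ 0 := mul_nonpos_of_nonpos_of_nonneg hb' h6.le
  have h9 : (a : ℝ) * s ^ d ≤ -2 * 1 := by nlinarith
  rw [h4]
  intro h0
  nlinarith

/-- PROOF. Let `A = -a`, `c = 2 A - 2 - b ≥ 2`. The equation is
`(s ^ h - 1) ^ 2 = A s ^ d (s ^ (h - d) - 1) ^ 2 + c s ^ h ≥ 2 s ^ h`, so `x = s ^ h > 1` has `x ^ 2 - 4 x + 1 ≥ 0`,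
`x > 3.7`. If `h ≤ 7` then `x ≤ s ^ 7 < 1.19 ^ 7 < 3.4`. -/
theorem real_eight {s : ℝ} {h d : ℕ} {a b : ℤ} (hs : 1 < s) (hs2 : s < 6 / 5) (hd : 0 < d)
    (hdh : d < h) (ha : a ≤ -1) (hb : b ≤ -2 * a - 4)
    (h0 : s ^ (2 * h) + a * s ^ (2 * h - d) + b * s ^ h + a * s ^ d + 1 = 0) : 8 ≤ h := by
  by_contra hc
  have hh : h ≤ 7 := by omega
  have ha' : (a : ℝ) ≤ -1 := by exact_mod_cast ha
  have hb' : (b : ℝ) ≤ -2 * a - 4 := by exact_mod_cast hb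
  have hx1 : 1 < s ^ h := one_lt_pow₀ hs (by omega)
  have hx2 : s ^ h < 37 / 10 := by
    calc s ^ h ≤ s ^ 7 := pow_le_pow_right₀ hs.le hh
      _ < (6 / 5) ^ 7 := pow_lt_pow_left₀ hs2 (by linarith) (by norm_num)
      _ < 37 / 10 := by norm_num
  have e1 : s ^ (2 * h) = s ^ h * s ^ h := by rw [← pow_add]; congr 1; omega
  have e2 : s ^ h = s ^ (h - d) * s ^ d := by rw [← pow_add]; congr 1; omega
  have e3 : s ^ (2 * h - d) = s ^ (h - d) * s ^ h := by rw [← pow_add]; congr 1; omega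
  have hp : 0 < s ^ d := by positivity
  have key : (s ^ h - 1) ^ 2 = -(a : ℝ) * (s ^ d * (s ^ (h - d) - 1) ^ 2) + (-2 * a - 2 - b) * s ^ h := by
    rw [e1, e3] at h0
    have e4 : s ^ d * (s ^ (h - d) - 1) ^ 2 = s ^ (h - d) * s ^ h - 2 * s ^ h + s ^ d := by
      rw [e2]
      ring
    rw [e4]
    linear_combination h0
  have h1 : 0 ≤ -(a : ℝ) * (s ^ d * (s ^ (h - d) - 1) ^ 2) :=
    mul_nonneg (by linarith) (by positivity)
  have h2 : 2 * s ^ h ≤ (-2 * a - 2 - b) * s ^ h :=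
    mul_le_mul_of_nonneg_right (by linarith) (by linarith)
  have h3 : 0 ≤ (s ^ h - 1) * (37 / 10 - s ^ h) := mul_nonneg (by linarith) (by linarith)
  nlinarith

end SalemGap
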