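import Pool.Agent.Lib.MP_9599cf_ntG.GDef

/-! # A value of the power sums -/

set_option autoImplicit false

namespace SalemGap

open SalemLen

/-- PROOF. By `supp` (`p k = 0` unless `k = i d + j h + l (2 h - d) + m (2 h)`): `p (h - d) = 0` (`h - d < h`, not divisible by
`d`, as `d ≥ 2` is coprime to `h`), and `p (2 d - h) = 0` if `h < 2 d` (`2 d - h < d < h`); `h ≠ 2 d`. So
`p d = A * d` (`d < h`, `d < 2 h - d`), `p h = A * p (h - d) - b * h = - b * h`,
`p (h + d) = A * p h - b * p d + A * p (2 d - h) = - A * b * h - b * A * d` (the third term only if `h < 2 d`, and it is zero;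
`h + d ≠ 2 h - d`, `h + d < 2 h`). -/
theorem five_val {p : ℕ → ℂ} {h d : ℕ} {A b : ℂ}
    (hrec : ∀ k, 0 < k → p k = A * qk p k d - b * qk p k h + A * qk p k (2 * h - d) - qk p k (2 * h))
    (hd : 2 ≤ d) (hdh : d < h) (hc : Nat.Coprime d h) : p (h + d) = -(((h : ℂ) + d) * (A * b)) := by
  have hnd : ∀ i : ℕ, h ≠ i * d := by
    intro i hi
    have h1 : d ∣ h := ⟨i, by rw [hi]; ring⟩
    have h2 : Nat.gcd d h = d := Nat.gcd_eq_left h1
    have h3 : Nat.gcd d h = 1 := hc
    omega
  have hrec' : ∀ k, 0 < k → p k = A * qk p k d + (-b) * qk p k h + A * qk p k (2 * h - d) +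
      (-1) * qk p k (2 * h) := by
    intro k hk
    rw [hrec k hk]
    ring
  have hz1 : p (h - d) = 0 := by
    refine supp hrec' (by omega) (by omega) (by omega) (by omega) (by omega) ?_
    intro i j l m hk
    rcases Nat.eq_zero_or_pos j with hj | hj
    · rcases Nat.eq_zero_or_pos l with hl | hl
      · rcases Nat.eq_zero_or_pos m with hm | hm
        · rw [hj, hl, hm] at hk
          simp only [zero_mul, add_zero] at hk
          refine hnd (i + 1) ?_
          rw [add_mul, one_mul]
          omega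
        · have h1 : 2 * h ≤ m * (2 * h) := Nat.le_mul_of_pos_left _ hm
          omega
      · have h1 : 2 * h - d ≤ l * (2 * h - d) := Nat.le_mul_of_pos_left _ hl
        omega
    · have h1 : h ≤ j * h := Nat.le_mul_of_pos_left _ hj
      omega
  have hz2 : h < 2 * d → p (2 * d - h) = 0 := by
    intro hlt
    refine supp hrec' (by omega) (by omega) (by omega) (by omega) (by omega) ?_
    intro i j l m hk
    rcases Nat.eq_zero_or_pos i with hi | hi
    · rcases Nat.eq_zero_or_pos j with hj | hj
      · rcases Nat.eq_zero_or_pos l with hl | hl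
        · rcases Nat.eq_zero_or_pos m with hm | hm
          · rw [hi, hj, hl, hm] at hk
            simp only [zero_mul, add_zero] at hk
            omega
          · have h1 : 2 * h ≤ m * (2 * h) := Nat.le_mul_of_pos_left _ hm
            omega
        · have h1 : 2 * h - d ≤ l * (2 * h - d) := Nat.le_mul_of_pos_left _ hl
          omega
      · have h1 : h ≤ j * h := Nat.le_mul_of_pos_left _ hj
        omega
    · have h1 : d ≤ i * d := Nat.le_mul_of_pos_left _ hi
      omega
  have hpd : p d = A * d := by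
    rw [hrec d (by omega)]
    unfold qk
    rw [if_neg (lt_irrefl d), if_pos rfl, if_neg (by omega : ¬ h < d), if_neg (by omega : ¬ h = d),
      if_neg (by omega : ¬ 2 * h - d < d), if_neg (by omega : ¬ 2 * h - d = d),
      if_neg (by omega : ¬ 2 * h < d), if_neg (by omega : ¬ 2 * h = d)]
    ring
  have hph : p h = -(b * h) := by
    rw [hrec h (by omega)]
    unfold qk
    rw [if_pos hdh, hz1, if_neg (lt_irrefl h), if_pos rfl, if_neg (by omega : ¬ 2 * h - d < h),
      if_neg (by omega : ¬ 2 * h - d = h), if_neg (by omega : ¬ 2 * h < h),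
      if_neg (by omega : ¬ 2 * h = h)]
    ring
  have hne : 2 * h - d ≠ h + d := by
    intro h1
    exact hnd 2 (by omega)
  have h3 : qk p (h + d) (2 * h - d) = 0 := by
    unfold qk
    rw [if_neg hne]
    split_ifs with hlt
    · have h1 : h + d - (2 * h - d) = 2 * d - h := by omega
      rw [h1]
      exact hz2 (by omega)
    · rfl
  rw [hrec (h + d) (by omega), h3]
  unfold qk
  rw [if_pos (by omega : d < h + d), if_pos (by omega : h < h + d), if_neg (by omega : ¬ 2 * h < h + d),
    if_neg (by omega : ¬ 2 * h = h + d), Nat.add_sub_cancel, Nat.add_sub_cancel_left, hpd, hph]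
  ring

/-- PROOF. `five_val` and `Pos.low` at `k = h + d`: `2 (h + d) ≤ (h + d) A b ≤ 2 h`, a contradiction. -/
theorem five_pos {p : ℕ → ℂ} {h d : ℕ} {A b : ℤ}
    (hrec : ∀ k, 0 < k → p k = (A : ℂ) * qk p k d - (b : ℂ) * qk p k h + (A : ℂ) * qk p k (2 * h - d) -
      qk p k (2 * h))
    (hp : Pos (2 * h) p) (hd : 2 ≤ d) (hdh : d < h) (hc : Nat.Coprime d h) (hA : 2 ≤ A) (hb : 1 ≤ b) :
    False := by
  have h1 := five_val hrec hd hdh hc
  have h2 := hp.low (h + d) (by omega)
  have h3 : p (h + d) = ((-(((h : ℝ) + d) * (A * b)) : ℝ) : ℂ) := by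
    rw [h1]
    push_cast
    ring
  rw [h3, Complex.ofReal_re] at h2
  push_cast at h2
  have hA' : (2 : ℝ) ≤ (A : ℝ) := by exact_mod_cast hA
  have hb' : (1 : ℝ) ≤ (b : ℝ) := by exact_mod_cast hb
  have hAb : (2 : ℝ) ≤ (A : ℝ) * b := by nlinarith
  have hd' : (2 : ℝ) ≤ (d : ℝ) := by exact_mod_cast hd
  have hh : (0 : ℝ) ≤ (h : ℝ) := Nat.cast_nonneg h
  have h4 : ((h : ℝ) + d) * 2 ≤ ((h : ℝ) + d) * (A * b) :=
    mul_le_mul_of_nonneg_left hAb (by linarith)
  linarith

end SalemGap
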